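import Mathlib

/-!
Recurrences for the coefficients of the powers of the Thue-Morse product
`F(x) = ∏ (1 - x^(2^i))`.
-/

namespace Pool.Agent.Work.MP_1a5b88_nt

open PowerSeries Filter
open scoped PowerSeries.WithPiTopology

/-- the Thue-Morse product -/
noncomputable def F : PowerSeries ℤ := ∏' i : ℕ, (1 - X ^ (2 ^ i))

theorem multipliable_F (a : ℕ) :
    Multipliable (fun i : ℕ => (1 - X ^ (2 ^ (i + a)) : PowerSeries ℤ)) := by
  simp_rw [sub_eq_add_neg]
  apply WithPiTopology.multipliable_one_add_of_tendsto_order_atTop_nhds_top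
  refine ENat.tendsto_nhds_top_iff_natCast_lt.mpr (fun n ↦ Filter.eventually_atTop.mpr ⟨n, ?_⟩)
  intro m hm
  rw [order_neg, order_X_pow]
  norm_cast
  calc n ≤ m := hm
    _ < 2 ^ m := Nat.lt_two_pow_self
    _ ≤ 2 ^ (m + a) := Nat.pow_le_pow_right (by norm_num) (by omega)

theorem continuous_expand :
    Continuous (expand 2 two_ne_zero : PowerSeries ℤ →ₐ[ℤ] PowerSeries ℤ) := by
  rw [continuous_iff_continuousAt]
  intro f
  rw [ContinuousAt, WithPiTopology.tendsto_iff_coeff_tendsto]
  intro d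
  by_cases hd : 2 ∣ d
  · obtain ⟨c, rfl⟩ := hd
    simp_rw [coeff_expand_mul]
    exact (WithPiTopology.continuous_coeff ℤ c).continuousAt
  · simp_rw [coeff_expand_of_not_dvd 2 two_ne_zero _ hd]
    exact tendsto_const_nhds

theorem F_eq : F = (1 - X) * expand 2 two_ne_zero F := by
  have h1 : F = (1 - X ^ (2 ^ 0)) * ∏' i : ℕ, (1 - X ^ (2 ^ (i + 1)) : PowerSeries ℤ) := by
    have := (multipliable_F 1)
    unfold F
    exact tprod_eq_zero_mul' this
  have h2 : expand 2 two_ne_zero F = ∏' i : ℕ, (1 - X ^ (2 ^ (i + 1)) : PowerSeries ℤ) := by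
    have h0 := Multipliable.map_tprod (multipliable_F 0)
      (expand 2 two_ne_zero : PowerSeries ℤ →ₐ[ℤ] PowerSeries ℤ) continuous_expand
    simp only [add_zero] at h0
    unfold F
    rw [h0]
    congr 1
    funext i
    rw [map_sub, map_one, map_pow, expand_X, ← pow_mul, pow_succ']
  rw [h2]
  rw [pow_zero, pow_one] at h1
  exact h1

theorem F_pow_eq (m : ℕ) : F ^ m = (1 - X) ^ m * expand 2 two_ne_zero (F ^ m) := by
  conv_lhs => rw [F_eq, mul_pow, ← map_pow]

theorem constantCoeff_F : constantCoeff F = 1 := by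
  have h := Multipliable.map_tprod (multipliable_F 0)
      (constantCoeff : PowerSeries ℤ →+* ℤ) (WithPiTopology.continuous_constantCoeff ℤ)
  simp only [add_zero] at h
  unfold F
  rw [h]
  simp

/-- the coefficients of a power series, extended by zero to negative indices -/
noncomputable def cz (G : PowerSeries ℤ) (n : ℤ) : ℤ := if 0 ≤ n then coeff n.toNat G else 0

theorem cz_nat (G : PowerSeries ℤ) (n : ℕ) : cz G (n : ℤ) = coeff n G := by
  simp [cz]

theorem cz_neg (G : PowerSeries ℤ) {n : ℤ} (h : n < 0) : cz G n = 0 := by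
  simp [cz, h]

theorem cz_add (G H : PowerSeries ℤ) (n : ℤ) : cz (G + H) n = cz G n + cz H n := by
  unfold cz; split_ifs <;> simp

theorem cz_sub (G H : PowerSeries ℤ) (n : ℤ) : cz (G - H) n = cz G n - cz H n := by
  unfold cz; split_ifs <;> simp

theorem cz_C_mul (c : ℤ) (G : PowerSeries ℤ) (n : ℤ) : cz (C c * G) n = c * cz G n := by
  unfold cz
  split_ifs
  · rw [coeff_C_mul]
  · rw [mul_zero]

theorem cz_X_pow_mul (d : ℕ) (G : PowerSeries ℤ) (n : ℤ) :
    cz (X ^ d * G) n = cz G (n - d) := by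
  unfold cz
  by_cases h : 0 ≤ n
  · rw [if_pos h, coeff_X_pow_mul']
    by_cases h2 : d ≤ n.toNat
    · rw [if_pos h2, if_pos (by omega)]
      have : n.toNat - d = (n - d).toNat := by omega
      rw [this]
    · rw [if_neg h2, if_neg (by omega)]
  · rw [if_neg h, if_neg (by omega)]

theorem cz_expand_even (G : PowerSeries ℤ) (n : ℤ) :
    cz (expand 2 two_ne_zero G) (2 * n) = cz G n := by
  unfold cz
  by_cases h : 0 ≤ n
  · rw [if_pos (by omega), if_pos h]
    have : (2 * n).toNat = 2 * n.toNat := by omega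
    rw [this, coeff_expand_mul]
  · rw [if_neg (by omega), if_neg h]

theorem cz_expand_odd (G : PowerSeries ℤ) (n : ℤ) :
    cz (expand 2 two_ne_zero G) (2 * n + 1) = 0 := by
  unfold cz
  by_cases h : 0 ≤ n
  · rw [if_pos (by omega)]
    have : (2 * n + 1).toNat = 2 * n.toNat + 1 := by omega
    rw [this, coeff_expand_of_not_dvd]
    omega
  · rw [if_neg (by omega)]

/-- if `(1 - X)^m = E(X^2) - X O(X^2)`, then the coefficients of `F^m` of even index are those of
`E F^m`, those of odd index are minus those of `O F^m`. -/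
theorem rec_even {m : ℕ} {E O : PowerSeries ℤ}
    (h : (1 - X : PowerSeries ℤ) ^ m = expand 2 two_ne_zero E - X * expand 2 two_ne_zero O)
    (n : ℤ) : cz (F ^ m) (2 * n) = cz (E * F ^ m) n := by
  conv_lhs => rw [F_pow_eq m, h]
  rw [sub_mul, mul_assoc, ← map_mul, ← map_mul, cz_sub, cz_expand_even, ← pow_one X,
    cz_X_pow_mul]
  have : (2 * n - ((1 : ℕ) : ℤ)) = 2 * (n - 1) + 1 := by push_cast; ring
  rw [this, cz_expand_odd, sub_zero]

theorem rec_odd {m : ℕ} {E O : PowerSeries ℤ}
    (h : (1 - X : PowerSeries ℤ) ^ m = expand 2 two_ne_zero E - X * expand 2 two_ne_zero O)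
    (n : ℤ) : cz (F ^ m) (2 * n + 1) = - cz (O * F ^ m) n := by
  conv_lhs => rw [F_pow_eq m, h]
  rw [sub_mul, mul_assoc, ← map_mul, ← map_mul, cz_sub, cz_expand_odd, ← pow_one X,
    cz_X_pow_mul]
  have : (2 * n + 1 - ((1 : ℕ) : ℤ)) = 2 * n := by push_cast; ring
  rw [this, cz_expand_even, zero_sub]

end Pool.Agent.Work.MP_1a5b88_nt
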