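import Mathlib
import Pool.Agent.Work.MP_1a5b88_nt.Basic

namespace Pool.Agent.Work.MP_1a5b88_nt

open PowerSeries Filter
open scoped PowerSeries.WithPiTopology

noncomputable def E5 : PowerSeries ℤ := C 1 * X ^ 0 + C 10 * X ^ 1 + C 5 * X ^ 2
noncomputable def O5 : PowerSeries ℤ := C 5 * X ^ 0 + C 10 * X ^ 1 + C 1 * X ^ 2

theorem split5 : (1 - X : PowerSeries ℤ) ^ 5 =
    expand 2 two_ne_zero E5 - X * expand 2 two_ne_zero O5 := by
  unfold E5 O5
  simp only [map_add, map_mul, map_pow, expand_X, expand_C]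
  simp only [eq_intCast]
  push_cast
  ring

theorem czE5 (G : PowerSeries ℤ) (n : ℤ) :
    cz (E5 * G) n = 1 * cz G (n - 0) + 10 * cz G (n - 1) + 5 * cz G (n - 2) := by
  unfold E5
  simp only [add_mul, mul_assoc, cz_add, cz_C_mul, cz_X_pow_mul]
  norm_num

theorem czO5 (G : PowerSeries ℤ) (n : ℤ) :
    cz (O5 * G) n = 5 * cz G (n - 0) + 10 * cz G (n - 1) + 1 * cz G (n - 2) := by
  unfold O5
  simp only [add_mul, mul_assoc, cz_add, cz_C_mul, cz_X_pow_mul]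
  norm_num

/-- coefficients of `F^5`, extended by zero -/
noncomputable def a5 (n : ℤ) : ℤ := cz (F ^ 5) n

theorem a5_even (n : ℤ) : a5 (2 * n) = 1 * a5 (n - 0) + 10 * a5 (n - 1) + 5 * a5 (n - 2) := by
  unfold a5
  rw [rec_even split5, czE5]

theorem a5_odd (n : ℤ) : a5 (2 * n + 1) = -(5 * a5 (n - 0) + 10 * a5 (n - 1) + 1 * a5 (n - 2)) := by
  unfold a5
  rw [rec_odd split5, czO5]

theorem a5_zero : a5 0 = 1 := by
  have := cz_nat (F ^ 5) 0
  unfold a5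
  rw [Nat.cast_zero] at this
  rw [this, coeff_zero_eq_constantCoeff, map_pow, constantCoeff_F, one_pow]

theorem a5_neg (n : ℤ) (h : n < 0) : a5 n = 0 := cz_neg _ h


noncomputable def E9 : PowerSeries ℤ := C 1 * X ^ 0 + C 36 * X ^ 1 + C 126 * X ^ 2 + C 84 * X ^ 3 + C 9 * X ^ 4
noncomputable def O9 : PowerSeries ℤ := C 9 * X ^ 0 + C 84 * X ^ 1 + C 126 * X ^ 2 + C 36 * X ^ 3 + C 1 * X ^ 4

theorem split9 : (1 - X : PowerSeries ℤ) ^ 9 =
    expand 2 two_ne_zero E9 - X * expand 2 two_ne_zero O9 := by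
  unfold E9 O9
  simp only [map_add, map_mul, map_pow, expand_X, expand_C]
  simp only [eq_intCast]
  push_cast
  ring

theorem czE9 (G : PowerSeries ℤ) (n : ℤ) :
    cz (E9 * G) n = 1 * cz G (n - 0) + 36 * cz G (n - 1) + 126 * cz G (n - 2) + 84 * cz G (n - 3) + 9 * cz G (n - 4) := by
  unfold E9
  simp only [add_mul, mul_assoc, cz_add, cz_C_mul, cz_X_pow_mul]
  norm_num

theorem czO9 (G : PowerSeries ℤ) (n : ℤ) :
    cz (O9 * G) n = 9 * cz G (n - 0) + 84 * cz G (n - 1) + 126 * cz G (n - 2) + 36 * cz G (n - 3) + 1 * cz G (n - 4) := by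
  unfold O9
  simp only [add_mul, mul_assoc, cz_add, cz_C_mul, cz_X_pow_mul]
  norm_num

/-- coefficients of `F^9`, extended by zero -/
noncomputable def a9 (n : ℤ) : ℤ := cz (F ^ 9) n

theorem a9_even (n : ℤ) : a9 (2 * n) = 1 * a9 (n - 0) + 36 * a9 (n - 1) + 126 * a9 (n - 2) + 84 * a9 (n - 3) + 9 * a9 (n - 4) := by
  unfold a9
  rw [rec_even split9, czE9]

theorem a9_odd (n : ℤ) : a9 (2 * n + 1) = -(9 * a9 (n - 0) + 84 * a9 (n - 1) + 126 * a9 (n - 2) + 36 * a9 (n - 3) + 1 * a9 (n - 4)) := by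
  unfold a9
  rw [rec_odd split9, czO9]

theorem a9_zero : a9 0 = 1 := by
  have := cz_nat (F ^ 9) 0
  unfold a9
  rw [Nat.cast_zero] at this
  rw [this, coeff_zero_eq_constantCoeff, map_pow, constantCoeff_F, one_pow]

theorem a9_neg (n : ℤ) (h : n < 0) : a9 n = 0 := cz_neg _ h


noncomputable def E17 : PowerSeries ℤ := C 1 * X ^ 0 + C 136 * X ^ 1 + C 2380 * X ^ 2 + C 12376 * X ^ 3 + C 24310 * X ^ 4 + C 19448 * X ^ 5 + C 6188 * X ^ 6 + C 680 * X ^ 7 + C 17 * X ^ 8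
noncomputable def O17 : PowerSeries ℤ := C 17 * X ^ 0 + C 680 * X ^ 1 + C 6188 * X ^ 2 + C 19448 * X ^ 3 + C 24310 * X ^ 4 + C 12376 * X ^ 5 + C 2380 * X ^ 6 + C 136 * X ^ 7 + C 1 * X ^ 8

theorem split17 : (1 - X : PowerSeries ℤ) ^ 17 =
    expand 2 two_ne_zero E17 - X * expand 2 two_ne_zero O17 := by
  unfold E17 O17
  simp only [map_add, map_mul, map_pow, expand_X, expand_C]
  simp only [eq_intCast]
  push_cast
  ring

theorem czE17 (G : PowerSeries ℤ) (n : ℤ) :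
    cz (E17 * G) n = 1 * cz G (n - 0) + 136 * cz G (n - 1) + 2380 * cz G (n - 2) + 12376 * cz G (n - 3) + 24310 * cz G (n - 4) + 19448 * cz G (n - 5) + 6188 * cz G (n - 6) + 680 * cz G (n - 7) + 17 * cz G (n - 8) := by
  unfold E17
  simp only [add_mul, mul_assoc, cz_add, cz_C_mul, cz_X_pow_mul]
  norm_num

theorem czO17 (G : PowerSeries ℤ) (n : ℤ) :
    cz (O17 * G) n = 17 * cz G (n - 0) + 680 * cz G (n - 1) + 6188 * cz G (n - 2) + 19448 * cz G (n - 3) + 24310 * cz G (n - 4) + 12376 * cz G (n - 5) + 2380 * cz G (n - 6) + 136 * cz G (n - 7) + 1 * cz G (n - 8) := by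
  unfold O17
  simp only [add_mul, mul_assoc, cz_add, cz_C_mul, cz_X_pow_mul]
  norm_num

/-- coefficients of `F^17`, extended by zero -/
noncomputable def a17 (n : ℤ) : ℤ := cz (F ^ 17) n

theorem a17_even (n : ℤ) : a17 (2 * n) = 1 * a17 (n - 0) + 136 * a17 (n - 1) + 2380 * a17 (n - 2) + 12376 * a17 (n - 3) + 24310 * a17 (n - 4) + 19448 * a17 (n - 5) + 6188 * a17 (n - 6) + 680 * a17 (n - 7) + 17 * a17 (n - 8) := by
  unfold a17
  rw [rec_even split17, czE17]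

theorem a17_odd (n : ℤ) : a17 (2 * n + 1) = -(17 * a17 (n - 0) + 680 * a17 (n - 1) + 6188 * a17 (n - 2) + 19448 * a17 (n - 3) + 24310 * a17 (n - 4) + 12376 * a17 (n - 5) + 2380 * a17 (n - 6) + 136 * a17 (n - 7) + 1 * a17 (n - 8)) := by
  unfold a17
  rw [rec_odd split17, czO17]

theorem a17_zero : a17 0 = 1 := by
  have := cz_nat (F ^ 17) 0
  unfold a17
  rw [Nat.cast_zero] at this
  rw [this, coeff_zero_eq_constantCoeff, map_pow, constantCoeff_F, one_pow]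

theorem a17_neg (n : ℤ) (h : n < 0) : a17 n = 0 := cz_neg _ h

end Pool.Agent.Work.MP_1a5b88_nt
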