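import Mathlib
import Pool.Agent.Work.MP_1a5b88_nt.Rec

namespace Pool.Agent.Work.MP_1a5b88_nt

theorem v17_m1 : a17 (-1) = 0 := a17_neg _ (by norm_num)
theorem v17_m2 : a17 (-2) = 0 := a17_neg _ (by norm_num)
theorem v17_m3 : a17 (-3) = 0 := a17_neg _ (by norm_num)
theorem v17_m4 : a17 (-4) = 0 := a17_neg _ (by norm_num)
theorem v17_m5 : a17 (-5) = 0 := a17_neg _ (by norm_num)
theorem v17_m6 : a17 (-6) = 0 := a17_neg _ (by norm_num)
theorem v17_m7 : a17 (-7) = 0 := a17_neg _ (by norm_num)
theorem v17_m8 : a17 (-8) = 0 := a17_neg _ (by norm_num)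
theorem v17_0 : a17 0 = 1 := a17_zero
theorem v17_1 : a17 1 = -17 := by
  have h := a17_odd 0
  norm_num [v17_0, v17_m1, v17_m2, v17_m3, v17_m4, v17_m5, v17_m6, v17_m7, v17_m8] at h
  exact h
theorem v17_2 : a17 2 = 119 := by
  have h := a17_even 1
  norm_num [v17_1, v17_0, v17_m1, v17_m2, v17_m3, v17_m4, v17_m5, v17_m6, v17_m7] at h
  exact h
theorem v17_3 : a17 3 = -391 := by
  have h := a17_odd 1
  norm_num [v17_1, v17_0, v17_m1, v17_m2, v17_m3, v17_m4, v17_m5, v17_m6, v17_m7] at h
  exact h
theorem v17_4 : a17 4 = 187 := by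
  have h := a17_even 2
  norm_num [v17_2, v17_1, v17_0, v17_m1, v17_m2, v17_m3, v17_m4, v17_m5, v17_m6] at h
  exact h
theorem v17_5 : a17 5 = 3349 := by
  have h := a17_odd 2
  norm_num [v17_2, v17_1, v17_0, v17_m1, v17_m2, v17_m3, v17_m4, v17_m5, v17_m6] at h
  exact h
theorem v17_6 : a17 6 = -12291 := by
  have h := a17_even 3
  norm_num [v17_3, v17_2, v17_1, v17_0, v17_m1, v17_m2, v17_m3, v17_m4, v17_m5] at h
  exact h
theorem v17_7 : a17 7 = 11475 := by
  have h := a17_odd 3
  norm_num [v17_3, v17_2, v17_1, v17_0, v17_m1, v17_m2, v17_m3, v17_m4, v17_m5] at h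
  exact h
theorem v17_8 : a17 8 = 44149 := by
  have h := a17_even 4
  norm_num [v17_4, v17_3, v17_2, v17_1, v17_0, v17_m1, v17_m2, v17_m3, v17_m4] at h
  exact h
theorem v17_9 : a17 9 = -167365 := by
  have h := a17_odd 4
  norm_num [v17_4, v17_3, v17_2, v17_1, v17_0, v17_m1, v17_m2, v17_m3, v17_m4] at h
  exact h
theorem v17_10 : a17 10 = 177123 := by
  have h := a17_even 5
  norm_num [v17_5, v17_4, v17_3, v17_2, v17_1, v17_0, v17_m1, v17_m2, v17_m3] at h
  exact h
theorem v17_11 : a17 11 = 321997 := by
  have h := a17_odd 5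
  norm_num [v17_5, v17_4, v17_3, v17_2, v17_1, v17_0, v17_m1, v17_m2, v17_m3] at h
  exact h
theorem v17_12 : a17 12 = -1382321 := by
  have h := a17_even 6
  norm_num [v17_6, v17_5, v17_4, v17_3, v17_2, v17_1, v17_0, v17_m1, v17_m2] at h
  exact h
theorem v17_13 : a17 13 = 1693761 := by
  have h := a17_odd 6
  norm_num [v17_6, v17_5, v17_4, v17_3, v17_2, v17_1, v17_0, v17_m1, v17_m2] at h
  exact h
theorem v17_14 : a17 14 = 1329417 := by
  have h := a17_even 7
  norm_num [v17_7, v17_6, v17_5, v17_4, v17_3, v17_2, v17_1, v17_0, v17_m1] at h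
  exact h
theorem v17_15 : a17 15 = -8124793 := by
  have h := a17_odd 7
  norm_num [v17_7, v17_6, v17_5, v17_4, v17_3, v17_2, v17_1, v17_0, v17_m1] at h
  exact h
theorem v17_16 : a17 16 = 11466024 := by
  have h := a17_even 8
  norm_num [v17_8, v17_7, v17_6, v17_5, v17_4, v17_3, v17_2, v17_1, v17_0] at h
  exact h
theorem v17_17 : a17 17 = 2383960 := by
  have h := a17_odd 8
  norm_num [v17_8, v17_7, v17_6, v17_5, v17_4, v17_3, v17_2, v17_1, v17_0] at h
  exact h
theorem v17_18 : a17 18 = -36253928 := by
  have h := a17_even 9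
  norm_num [v17_9, v17_8, v17_7, v17_6, v17_5, v17_4, v17_3, v17_2, v17_1] at h
  exact h
theorem v17_19 : a17 19 = 58037864 := by
  have h := a17_odd 9
  norm_num [v17_9, v17_8, v17_7, v17_6, v17_5, v17_4, v17_3, v17_2, v17_1] at h
  exact h
theorem v17_20 : a17 20 = -8264856 := by
  have h := a17_even 10
  norm_num [v17_10, v17_9, v17_8, v17_7, v17_6, v17_5, v17_4, v17_3, v17_2] at h
  exact h
theorem v17_21 : a17 21 = -128607720 := by
  have h := a17_odd 10
  norm_num [v17_10, v17_9, v17_8, v17_7, v17_6, v17_5, v17_4, v17_3, v17_2] at h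
  exact h
theorem v17_22 : a17 22 = 233236056 := by
  have h := a17_even 11
  norm_num [v17_11, v17_10, v17_9, v17_8, v17_7, v17_6, v17_5, v17_4, v17_3] at h
  exact h
theorem v17_23 : a17 23 = -83712216 := by
  have h := a17_odd 11
  norm_num [v17_11, v17_10, v17_9, v17_8, v17_7, v17_6, v17_5, v17_4, v17_3] at h
  exact h
theorem v17_24 : a17 24 = -384695448 := by
  have h := a17_even 12
  norm_num [v17_12, v17_11, v17_10, v17_9, v17_8, v17_7, v17_6, v17_5, v17_4] at h
  exact h
theorem v17_25 : a17 25 = 776939032 := by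
  have h := a17_odd 12
  norm_num [v17_12, v17_11, v17_10, v17_9, v17_8, v17_7, v17_6, v17_5, v17_4] at h
  exact h
theorem v17_26 : a17 26 = -375201832 := by
  have h := a17_even 13
  norm_num [v17_13, v17_12, v17_11, v17_10, v17_9, v17_8, v17_7, v17_6, v17_5] at h
  exact h
theorem v17_27 : a17 27 = -1029408344 := by
  have h := a17_odd 13
  norm_num [v17_13, v17_12, v17_11, v17_10, v17_9, v17_8, v17_7, v17_6, v17_5] at h
  exact h
theorem v17_28 : a17 28 = 2258525480 := by
  have h := a17_even 14
  norm_num [v17_14, v17_13, v17_12, v17_11, v17_10, v17_9, v17_8, v17_7, v17_6] at h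
  exact h
theorem v17_29 : a17 29 = -1223926696 := by
  have h := a17_odd 14
  norm_num [v17_14, v17_13, v17_12, v17_11, v17_10, v17_9, v17_8, v17_7, v17_6] at h
  exact h
theorem v17_30 : a17 30 = -2636780648 := by
  have h := a17_even 15
  norm_num [v17_15, v17_14, v17_13, v17_12, v17_11, v17_10, v17_9, v17_8, v17_7] at h
  exact h
theorem v17_31 : a17 31 = 6008995304 := by
  have h := a17_odd 15
  norm_num [v17_15, v17_14, v17_13, v17_12, v17_11, v17_10, v17_9, v17_8, v17_7] at h
  exact h
theorem v17_48 : a17 48 = -343038447808 := by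
  have h := a17_even 24
  norm_num [v17_24, v17_23, v17_22, v17_21, v17_20, v17_19, v17_18, v17_17, v17_16] at h
  exact h
theorem v17_49 : a17 49 = 689953062080 := by
  have h := a17_odd 24
  norm_num [v17_24, v17_23, v17_22, v17_21, v17_20, v17_19, v17_18, v17_17, v17_16] at h
  exact h
theorem v17_50 : a17 50 = -316909720896 := by
  have h := a17_even 25
  norm_num [v17_25, v17_24, v17_23, v17_22, v17_21, v17_20, v17_19, v17_18, v17_17] at h
  exact h
theorem v17_51 : a17 51 = -674041118400 := by
  have h := a17_odd 25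
  norm_num [v17_25, v17_24, v17_23, v17_22, v17_21, v17_20, v17_19, v17_18, v17_17] at h
  exact h
theorem v17_52 : a17 52 = 1310203039680 := by
  have h := a17_even 26
  norm_num [v17_26, v17_25, v17_24, v17_23, v17_22, v17_21, v17_20, v17_19, v17_18] at h
  exact h
theorem v17_53 : a17 53 = -579915418560 := by
  have h := a17_odd 26
  norm_num [v17_26, v17_25, v17_24, v17_23, v17_22, v17_21, v17_20, v17_19, v17_18] at h
  exact h
theorem v17_54 : a17 54 = -1263460009408 := by
  have h := a17_even 27
  norm_num [v17_27, v17_26, v17_25, v17_24, v17_23, v17_22, v17_21, v17_20, v17_19] at h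
  exact h
theorem v17_55 : a17 55 = 2402162428352 := by
  have h := a17_odd 27
  norm_num [v17_27, v17_26, v17_25, v17_24, v17_23, v17_22, v17_21, v17_20, v17_19] at h
  exact h
theorem v17_56 : a17 56 = -1039634464704 := by
  have h := a17_even 28
  norm_num [v17_28, v17_27, v17_26, v17_25, v17_24, v17_23, v17_22, v17_21, v17_20] at h
  exact h
theorem v17_57 : a17 57 = -2276192789568 := by
  have h := a17_odd 28
  norm_num [v17_28, v17_27, v17_26, v17_25, v17_24, v17_23, v17_22, v17_21, v17_20] at h
  exact h
theorem v17_58 : a17 58 = 4256679596480 := by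
  have h := a17_even 29
  norm_num [v17_29, v17_28, v17_27, v17_26, v17_25, v17_24, v17_23, v17_22, v17_21] at h
  exact h
theorem v17_59 : a17 59 = -1806839936448 := by
  have h := a17_odd 29
  norm_num [v17_29, v17_28, v17_27, v17_26, v17_25, v17_24, v17_23, v17_22, v17_21] at h
  exact h
theorem v17_60 : a17 60 = -3978458801984 := by
  have h := a17_even 30
  norm_num [v17_30, v17_29, v17_28, v17_27, v17_26, v17_25, v17_24, v17_23, v17_22] at h
  exact h
theorem v17_61 : a17 61 = 7353759095616 := by
  have h := a17_odd 30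
  norm_num [v17_30, v17_29, v17_28, v17_27, v17_26, v17_25, v17_24, v17_23, v17_22] at h
  exact h
theorem v17_62 : a17 62 = -3091186722496 := by
  have h := a17_even 31
  norm_num [v17_31, v17_30, v17_29, v17_28, v17_27, v17_26, v17_25, v17_24, v17_23] at h
  exact h
theorem v17_63 : a17 63 = -6787585107264 := by
  have h := a17_odd 31
  norm_num [v17_31, v17_30, v17_29, v17_28, v17_27, v17_26, v17_25, v17_24, v17_23] at h
  exact h
theorem v17_112 : a17 112 = 7386169712976384 := by
  have h := a17_even 56
  norm_num [v17_56, v17_55, v17_54, v17_53, v17_52, v17_51, v17_50, v17_49, v17_48] at h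
  exact h
theorem v17_113 : a17 113 = -5367659522572800 := by
  have h := a17_odd 56
  norm_num [v17_56, v17_55, v17_54, v17_53, v17_52, v17_51, v17_50, v17_49, v17_48] at h
  exact h
theorem v17_114 : a17 114 = -3054751935255040 := by
  have h := a17_even 57
  norm_num [v17_57, v17_56, v17_55, v17_54, v17_53, v17_52, v17_51, v17_50, v17_49] at h
  exact h
theorem v17_115 : a17 115 = 9982134506631680 := by
  have h := a17_odd 57
  norm_num [v17_57, v17_56, v17_55, v17_54, v17_53, v17_52, v17_51, v17_50, v17_49] at h
  exact h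
theorem v17_116 : a17 116 = -7399580257586688 := by
  have h := a17_even 58
  norm_num [v17_58, v17_57, v17_56, v17_55, v17_54, v17_53, v17_52, v17_51, v17_50] at h
  exact h
theorem v17_117 : a17 117 = -3943099979043328 := by
  have h := a17_odd 58
  norm_num [v17_58, v17_57, v17_56, v17_55, v17_54, v17_53, v17_52, v17_51, v17_50] at h
  exact h
theorem v17_118 : a17 118 = 13409007739026944 := by
  have h := a17_even 59
  norm_num [v17_59, v17_58, v17_57, v17_56, v17_55, v17_54, v17_53, v17_52, v17_51] at h
  exact h
theorem v17_119 : a17 119 = -10117236228185600 := by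
  have h := a17_odd 59
  norm_num [v17_59, v17_58, v17_57, v17_56, v17_55, v17_54, v17_53, v17_52, v17_51] at h
  exact h
theorem v17_120 : a17 120 = -5035591715757568 := by
  have h := a17_even 60
  norm_num [v17_60, v17_59, v17_58, v17_57, v17_56, v17_55, v17_54, v17_53, v17_52] at h
  exact h
theorem v17_121 : a17 121 = 17852293724864000 := by
  have h := a17_odd 60
  norm_num [v17_60, v17_59, v17_58, v17_57, v17_56, v17_55, v17_54, v17_53, v17_52] at h
  exact h
theorem v17_122 : a17 122 = -13710817046516224 := by
  have h := a17_even 61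
  norm_num [v17_61, v17_60, v17_59, v17_58, v17_57, v17_56, v17_55, v17_54, v17_53] at h
  exact h
theorem v17_123 : a17 123 = -6366814438084096 := by
  have h := a17_odd 61
  norm_num [v17_61, v17_60, v17_59, v17_58, v17_57, v17_56, v17_55, v17_54, v17_53] at h
  exact h
theorem v17_124 : a17 124 = 23558054230520320 := by
  have h := a17_even 62
  norm_num [v17_62, v17_61, v17_60, v17_59, v17_58, v17_57, v17_56, v17_55, v17_54] at h
  exact h
theorem v17_125 : a17 125 = -18350699491004928 := by
  have h := a17_odd 62
  norm_num [v17_62, v17_61, v17_60, v17_59, v17_58, v17_57, v17_56, v17_55, v17_54] at h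
  exact h
theorem v17_126 : a17 126 = -8054218184425984 := by
  have h := a17_even 63
  norm_num [v17_63, v17_62, v17_61, v17_60, v17_59, v17_58, v17_57, v17_56, v17_55] at h
  exact h
theorem v17_240 : a17 240 = -26445839383051665408 := by
  have h := a17_even 120
  norm_num [v17_120, v17_119, v17_118, v17_117, v17_116, v17_115, v17_114, v17_113, v17_112] at h
  exact h
theorem v17_241 : a17 241 = 65013618736792633344 := by
  have h := a17_odd 120
  norm_num [v17_120, v17_119, v17_118, v17_117, v17_116, v17_115, v17_114, v17_113, v17_112] at h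
  exact h
theorem v17_242 : a17 242 = -38958961165411975168 := by
  have h := a17_even 121
  norm_num [v17_121, v17_120, v17_119, v17_118, v17_117, v17_116, v17_115, v17_114, v17_113] at h
  exact h
theorem v17_243 : a17 243 = -30954911799821041664 := by
  have h := a17_odd 121
  norm_num [v17_121, v17_120, v17_119, v17_118, v17_117, v17_116, v17_115, v17_114, v17_113] at h
  exact h
theorem v17_244 : a17 244 = 75453465076981137408 := by
  have h := a17_even 122
  norm_num [v17_122, v17_121, v17_120, v17_119, v17_118, v17_117, v17_116, v17_115, v17_114] at h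
  exact h
theorem v17_245 : a17 245 = -44902911463270481920 := by
  have h := a17_odd 122
  norm_num [v17_122, v17_121, v17_120, v17_119, v17_118, v17_117, v17_116, v17_115, v17_114] at h
  exact h
theorem v17_246 : a17 246 = -36136613099265884160 := by
  have h := a17_even 123
  norm_num [v17_123, v17_122, v17_121, v17_120, v17_119, v17_118, v17_117, v17_116, v17_115] at h
  exact h
theorem v17_247 : a17 247 = 87274857215315968000 := by
  have h := a17_odd 123
  norm_num [v17_123, v17_122, v17_121, v17_120, v17_119, v17_118, v17_117, v17_116, v17_115] at h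
  exact h
theorem v17_248 : a17 248 = -51541491877990400000 := by
  have h := a17_even 124
  norm_num [v17_124, v17_123, v17_122, v17_121, v17_120, v17_119, v17_118, v17_117, v17_116] at h
  exact h
theorem v17_249 : a17 249 = -42163552652719521792 := by
  have h := a17_odd 124
  norm_num [v17_124, v17_123, v17_122, v17_121, v17_120, v17_119, v17_118, v17_117, v17_116] at h
  exact h
theorem v17_250 : a17 250 = 100850162091807571968 := by
  have h := a17_even 125
  norm_num [v17_125, v17_124, v17_123, v17_122, v17_121, v17_120, v17_119, v17_118, v17_117] at h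
  exact h
theorem v17_251 : a17 251 = -59071134428569894912 := by
  have h := a17_odd 125
  norm_num [v17_125, v17_124, v17_123, v17_122, v17_121, v17_120, v17_119, v17_118, v17_117] at h
  exact h
theorem v17_252 : a17 252 = -49161838846416420864 := by
  have h := a17_even 126
  norm_num [v17_126, v17_125, v17_124, v17_123, v17_122, v17_121, v17_120, v17_119, v17_118] at h
  exact h
theorem v17_496 : a17 496 = 405038508762146334834688 := by
  have h := a17_even 248
  norm_num [v17_248, v17_247, v17_246, v17_245, v17_244, v17_243, v17_242, v17_241, v17_240] at h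
  exact h
theorem v17_504 : a17 504 = -98392455150140920430592 := by
  have h := a17_even 252
  norm_num [v17_252, v17_251, v17_250, v17_249, v17_248, v17_247, v17_246, v17_245, v17_244] at h
  exact h

end Pool.Agent.Work.MP_1a5b88_nt
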