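import Mathlib
import Pool.Agent.Work.MP_1a5b88_nt.Rec

set_option linter.unusedSimpArgs false

namespace Pool.Agent.Work.MP_1a5b88_nt

theorem s5_0 (N : ℤ) : a5 (2 * N + 1 - 0) = (-5) * a5 (N - 0) + (-10) * a5 (N - 1) + (-1) * a5 (N - 2) := by
  have h := a5_odd (N - 0)
  rw [show (2 * (N - 0) + 1 : ℤ) = 2 * N + 1 - 0 by ring] at h
  rw [h]
  ring_nf

theorem s5_1 (N : ℤ) : a5 (2 * N + 1 - 1) = 1 * a5 (N - 0) + 10 * a5 (N - 1) + 5 * a5 (N - 2) := by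
  have h := a5_even (N - 0)
  rw [show (2 * (N - 0) : ℤ) = 2 * N + 1 - 1 by ring] at h
  rw [h]
  ring_nf

theorem s5_2 (N : ℤ) : a5 (2 * N + 1 - 2) = (-5) * a5 (N - 1) + (-10) * a5 (N - 2) + (-1) * a5 (N - 3) := by
  have h := a5_odd (N - 1)
  rw [show (2 * (N - 1) + 1 : ℤ) = 2 * N + 1 - 2 by ring] at h
  rw [h]
  ring_nf

theorem s5_3 (N : ℤ) : a5 (2 * N + 1 - 3) = 1 * a5 (N - 1) + 10 * a5 (N - 2) + 5 * a5 (N - 3) := by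
  have h := a5_even (N - 1)
  rw [show (2 * (N - 1) : ℤ) = 2 * N + 1 - 3 by ring] at h
  rw [h]
  ring_nf

theorem e5_0 (N : ℤ) : a5 (2 * N - 0) = 1 * a5 (N - 0) + 10 * a5 (N - 1) + 5 * a5 (N - 2) := by
  have h := a5_even (N - 0)
  rw [show (2 * (N - 0) : ℤ) = 2 * N - 0 by ring] at h
  rw [h]
  ring_nf

theorem e5_1 (N : ℤ) : a5 (2 * N - 1) = (-5) * a5 (N - 1) + (-10) * a5 (N - 2) + (-1) * a5 (N - 3) := by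
  have h := a5_odd (N - 1)
  rw [show (2 * (N - 1) + 1 : ℤ) = 2 * N - 1 by ring] at h
  rw [h]
  ring_nf

theorem e5_2 (N : ℤ) : a5 (2 * N - 2) = 1 * a5 (N - 1) + 10 * a5 (N - 2) + 5 * a5 (N - 3) := by
  have h := a5_even (N - 1)
  rw [show (2 * (N - 1) : ℤ) = 2 * N - 2 by ring] at h
  rw [h]
  ring_nf

theorem e5_3 (N : ℤ) : a5 (2 * N - 3) = (-5) * a5 (N - 2) + (-10) * a5 (N - 3) + (-1) * a5 (N - 4) := by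
  have h := a5_odd (N - 2)
  rw [show (2 * (N - 2) + 1 : ℤ) = 2 * N - 3 by ring] at h
  rw [h]
  ring_nf

theorem p5_1_0 (N : ℤ) : a5 (4 * N + 3 - 0) = 15 * a5 (N - 0) + (-45) * a5 (N - 1) + (-35) * a5 (N - 2) + 1 * a5 (N - 3) := by
  have h := s5_0 (2 * N + 1)
  rw [show (2 * (2 * N + 1) + 1 - 0 : ℤ) = 4 * N + 3 - 0 by ring] at h
  rw [h]
  simp only [s5_0 N, s5_1 N, s5_2 N, s5_3 N]
  ring

theorem p5_1_1 (N : ℤ) : a5 (4 * N + 3 - 1) = 5 * a5 (N - 0) + 65 * a5 (N - 1) + (-1) * a5 (N - 2) + (-5) * a5 (N - 3) := by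
  have h := s5_1 (2 * N + 1)
  rw [show (2 * (2 * N + 1) + 1 - 1 : ℤ) = 4 * N + 3 - 1 by ring] at h
  rw [h]
  simp only [s5_0 N, s5_1 N, s5_2 N, s5_3 N]
  ring

theorem p5_1_2 (N : ℤ) : a5 (4 * N + 3 - 2) = (-5) * a5 (N - 0) + (-1) * a5 (N - 1) + 65 * a5 (N - 2) + 5 * a5 (N - 3) := by
  have h := s5_2 (2 * N + 1)
  rw [show (2 * (2 * N + 1) + 1 - 2 : ℤ) = 4 * N + 3 - 2 by ring] at h
  rw [h]
  simp only [s5_0 N, s5_1 N, s5_2 N, s5_3 N]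
  ring

theorem p5_1_3 (N : ℤ) : a5 (4 * N + 3 - 3) = 1 * a5 (N - 0) + (-35) * a5 (N - 1) + (-45) * a5 (N - 2) + 15 * a5 (N - 3) := by
  have h := s5_3 (2 * N + 1)
  rw [show (2 * (2 * N + 1) + 1 - 3 : ℤ) = 4 * N + 3 - 3 by ring] at h
  rw [h]
  simp only [s5_0 N, s5_1 N, s5_2 N, s5_3 N]
  ring

theorem p5_2_0 (N : ℤ) : a5 (16 * N + 15 - 0) = 176 * a5 (N - 0) + (-3600) * a5 (N - 1) + (-2800) * a5 (N - 2) + 80 * a5 (N - 3) := by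
  have h := p5_1_0 (4 * N + 3)
  rw [show (4 * (4 * N + 3) + 3 - 0 : ℤ) = 16 * N + 15 - 0 by ring] at h
  rw [h]
  simp only [p5_1_0 N, p5_1_1 N, p5_1_2 N, p5_1_3 N]
  ring

theorem p5_2_1 (N : ℤ) : a5 (16 * N + 15 - 1) = 400 * a5 (N - 0) + 4176 * a5 (N - 1) + (-80) * a5 (N - 2) + (-400) * a5 (N - 3) := by
  have h := p5_1_1 (4 * N + 3)
  rw [show (4 * (4 * N + 3) + 3 - 1 : ℤ) = 16 * N + 15 - 1 by ring] at h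
  rw [h]
  simp only [p5_1_0 N, p5_1_1 N, p5_1_2 N, p5_1_3 N]
  ring

theorem p5_2_2 (N : ℤ) : a5 (16 * N + 15 - 2) = (-400) * a5 (N - 0) + (-80) * a5 (N - 1) + 4176 * a5 (N - 2) + 400 * a5 (N - 3) := by
  have h := p5_1_2 (4 * N + 3)
  rw [show (4 * (4 * N + 3) + 3 - 2 : ℤ) = 16 * N + 15 - 2 by ring] at h
  rw [h]
  simp only [p5_1_0 N, p5_1_1 N, p5_1_2 N, p5_1_3 N]
  ring

theorem p5_2_3 (N : ℤ) : a5 (16 * N + 15 - 3) = 80 * a5 (N - 0) + (-2800) * a5 (N - 1) + (-3600) * a5 (N - 2) + 176 * a5 (N - 3) := by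
  have h := p5_1_3 (4 * N + 3)
  rw [show (4 * (4 * N + 3) + 3 - 3 : ℤ) = 16 * N + 15 - 3 by ring] at h
  rw [h]
  simp only [p5_1_0 N, p5_1_1 N, p5_1_2 N, p5_1_3 N]
  ring

theorem ch5_0 (N : ℤ) : a5 (16 * N + 15 - 0) = 80 * a5 (4 * N + 3 - 0) + (-1024) * a5 (N - 0) := by
  rw [p5_2_0, p5_1_0]
  ring

theorem ch5_1 (N : ℤ) : a5 (16 * N + 15 - 1) = 80 * a5 (4 * N + 3 - 1) + (-1024) * a5 (N - 1) := by
  rw [p5_2_1, p5_1_1]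
  ring

theorem ch5_2 (N : ℤ) : a5 (16 * N + 15 - 2) = 80 * a5 (4 * N + 3 - 2) + (-1024) * a5 (N - 2) := by
  rw [p5_2_2, p5_1_2]
  ring

theorem ch5_3 (N : ℤ) : a5 (16 * N + 15 - 3) = 80 * a5 (4 * N + 3 - 3) + (-1024) * a5 (N - 3) := by
  rw [p5_2_3, p5_1_3]
  ring

theorem b5_1_0 (q : ℤ) : a5 (2 * (2 * q + 1) - 1 - 0) = (-5) * a5 (q - 0) + (-1) * a5 (q - 1) + 65 * a5 (q - 2) + 5 * a5 (q - 3) := by
  have h := s5_0 (2 * q)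
  rw [show (2 * (2 * q) + 1 - 0 : ℤ) = 2 * (2 * q + 1) - 1 - 0 by ring] at h
  rw [h]
  simp only [e5_0 q, e5_1 q, e5_2 q, e5_3 q]
  ring

theorem b5_1_1 (q : ℤ) : a5 (2 * (2 * q + 1) - 1 - 1) = 1 * a5 (q - 0) + (-35) * a5 (q - 1) + (-45) * a5 (q - 2) + 15 * a5 (q - 3) := by
  have h := s5_1 (2 * q)
  rw [show (2 * (2 * q) + 1 - 1 : ℤ) = 2 * (2 * q + 1) - 1 - 1 by ring] at h
  rw [h]
  simp only [e5_0 q, e5_1 q, e5_2 q, e5_3 q]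
  ring

theorem b5_1_2 (q : ℤ) : a5 (2 * (2 * q + 1) - 1 - 2) = 15 * a5 (q - 1) + (-45) * a5 (q - 2) + (-35) * a5 (q - 3) + 1 * a5 (q - 4) := by
  have h := s5_2 (2 * q)
  rw [show (2 * (2 * q) + 1 - 2 : ℤ) = 2 * (2 * q + 1) - 1 - 2 by ring] at h
  rw [h]
  simp only [e5_0 q, e5_1 q, e5_2 q, e5_3 q]
  ring

theorem b5_1_3 (q : ℤ) : a5 (2 * (2 * q + 1) - 1 - 3) = 5 * a5 (q - 1) + 65 * a5 (q - 2) + (-1) * a5 (q - 3) + (-5) * a5 (q - 4) := by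
  have h := s5_3 (2 * q)
  rw [show (2 * (2 * q) + 1 - 3 : ℤ) = 2 * (2 * q + 1) - 1 - 3 by ring] at h
  rw [h]
  simp only [e5_0 q, e5_1 q, e5_2 q, e5_3 q]
  ring

theorem b5_2_0 (q : ℤ) : a5 (4 * (2 * q + 1) - 1 - 0) = 15 * a5 (q - 0) + 340 * a5 (q - 1) + 170 * a5 (q - 2) + (-140) * a5 (q - 3) + (-1) * a5 (q - 4) := by
  have h := s5_0 (2 * (2 * q + 1) - 1)
  rw [show (2 * (2 * (2 * q + 1) - 1) + 1 - 0 : ℤ) = 4 * (2 * q + 1) - 1 - 0 by ring] at h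
  rw [h]
  simp only [b5_1_0 q, b5_1_1 q, b5_1_2 q, b5_1_3 q]
  ring

theorem b5_2_1 (q : ℤ) : a5 (4 * (2 * q + 1) - 1 - 1) = 5 * a5 (q - 0) + (-276) * a5 (q - 1) + (-610) * a5 (q - 2) + (-20) * a5 (q - 3) + 5 * a5 (q - 4) := by
  have h := s5_1 (2 * (2 * q + 1) - 1)
  rw [show (2 * (2 * (2 * q + 1) - 1) + 1 - 1 : ℤ) = 4 * (2 * q + 1) - 1 - 1 by ring] at h
  rw [h]
  simp only [b5_1_0 q, b5_1_1 q, b5_1_2 q, b5_1_3 q]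
  ring

theorem b5_2_2 (q : ℤ) : a5 (4 * (2 * q + 1) - 1 - 2) = (-5) * a5 (q - 0) + 20 * a5 (q - 1) + 610 * a5 (q - 2) + 276 * a5 (q - 3) + (-5) * a5 (q - 4) := by
  have h := s5_2 (2 * (2 * q + 1) - 1)
  rw [show (2 * (2 * (2 * q + 1) - 1) + 1 - 2 : ℤ) = 4 * (2 * q + 1) - 1 - 2 by ring] at h
  rw [h]
  simp only [b5_1_0 q, b5_1_1 q, b5_1_2 q, b5_1_3 q]
  ring

theorem b5_2_3 (q : ℤ) : a5 (4 * (2 * q + 1) - 1 - 3) = 1 * a5 (q - 0) + 140 * a5 (q - 1) + (-170) * a5 (q - 2) + (-340) * a5 (q - 3) + (-15) * a5 (q - 4) := by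
  have h := s5_3 (2 * (2 * q + 1) - 1)
  rw [show (2 * (2 * (2 * q + 1) - 1) + 1 - 3 : ℤ) = 4 * (2 * q + 1) - 1 - 3 by ring] at h
  rw [h]
  simp only [b5_1_0 q, b5_1_1 q, b5_1_2 q, b5_1_3 q]
  ring

theorem b5_3_0 (q : ℤ) : a5 (8 * (2 * q + 1) - 1 - 0) = (-120) * a5 (q - 0) + 1040 * a5 (q - 1) + 4640 * a5 (q - 2) + 624 * a5 (q - 3) + (-40) * a5 (q - 4) := by
  have h := s5_0 (4 * (2 * q + 1) - 1)
  rw [show (2 * (4 * (2 * q + 1) - 1) + 1 - 0 : ℤ) = 8 * (2 * q + 1) - 1 - 0 by ring] at h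
  rw [h]
  simp only [b5_2_0 q, b5_2_1 q, b5_2_2 q, b5_2_3 q]
  ring

theorem b5_3_1 (q : ℤ) : a5 (8 * (2 * q + 1) - 1 - 1) = 40 * a5 (q - 0) + (-2320) * a5 (q - 1) + (-2880) * a5 (q - 2) + 1040 * a5 (q - 3) + 24 * a5 (q - 4) := by
  have h := s5_1 (4 * (2 * q + 1) - 1)
  rw [show (2 * (4 * (2 * q + 1) - 1) + 1 - 1 : ℤ) = 8 * (2 * q + 1) - 1 - 1 by ring] at h
  rw [h]
  simp only [b5_2_0 q, b5_2_1 q, b5_2_2 q, b5_2_3 q]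
  ring

theorem b5_3_2 (q : ℤ) : a5 (8 * (2 * q + 1) - 1 - 2) = 24 * a5 (q - 0) + 1040 * a5 (q - 1) + (-2880) * a5 (q - 2) + (-2320) * a5 (q - 3) + 40 * a5 (q - 4) := by
  have h := s5_2 (4 * (2 * q + 1) - 1)
  rw [show (2 * (4 * (2 * q + 1) - 1) + 1 - 2 : ℤ) = 8 * (2 * q + 1) - 1 - 2 by ring] at h
  rw [h]
  simp only [b5_2_0 q, b5_2_1 q, b5_2_2 q, b5_2_3 q]
  ring

theorem b5_3_3 (q : ℤ) : a5 (8 * (2 * q + 1) - 1 - 3) = (-40) * a5 (q - 0) + 624 * a5 (q - 1) + 4640 * a5 (q - 2) + 1040 * a5 (q - 3) + (-120) * a5 (q - 4) := by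
  have h := s5_3 (4 * (2 * q + 1) - 1)
  rw [show (2 * (4 * (2 * q + 1) - 1) + 1 - 3 : ℤ) = 8 * (2 * q + 1) - 1 - 3 by ring] at h
  rw [h]
  simp only [b5_2_0 q, b5_2_1 q, b5_2_2 q, b5_2_3 q]
  ring

theorem b5_4_0 (q : ℤ) : a5 (16 * (2 * q + 1) - 1 - 0) = 176 * a5 (q - 0) + 16960 * a5 (q - 1) + 8480 * a5 (q - 2) + (-11200) * a5 (q - 3) + (-80) * a5 (q - 4) := by
  have h := s5_0 (8 * (2 * q + 1) - 1)
  rw [show (2 * (8 * (2 * q + 1) - 1) + 1 - 0 : ℤ) = 16 * (2 * q + 1) - 1 - 0 by ring] at h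
  rw [h]
  simp only [b5_3_0 q, b5_3_1 q, b5_3_2 q, b5_3_3 q]
  ring

theorem b5_4_1 (q : ℤ) : a5 (16 * (2 * q + 1) - 1 - 1) = 400 * a5 (q - 0) + (-16960) * a5 (q - 1) + (-38560) * a5 (q - 2) + (-576) * a5 (q - 3) + 400 * a5 (q - 4) := by
  have h := s5_1 (8 * (2 * q + 1) - 1)
  rw [show (2 * (8 * (2 * q + 1) - 1) + 1 - 1 : ℤ) = 16 * (2 * q + 1) - 1 - 1 by ring] at h
  rw [h]
  simp only [b5_3_0 q, b5_3_1 q, b5_3_2 q, b5_3_3 q]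
  ring

theorem b5_4_2 (q : ℤ) : a5 (16 * (2 * q + 1) - 1 - 2) = (-400) * a5 (q - 0) + 576 * a5 (q - 1) + 38560 * a5 (q - 2) + 16960 * a5 (q - 3) + (-400) * a5 (q - 4) := by
  have h := s5_2 (8 * (2 * q + 1) - 1)
  rw [show (2 * (8 * (2 * q + 1) - 1) + 1 - 2 : ℤ) = 16 * (2 * q + 1) - 1 - 2 by ring] at h
  rw [h]
  simp only [b5_3_0 q, b5_3_1 q, b5_3_2 q, b5_3_3 q]
  ring

theorem b5_4_3 (q : ℤ) : a5 (16 * (2 * q + 1) - 1 - 3) = 80 * a5 (q - 0) + 11200 * a5 (q - 1) + (-8480) * a5 (q - 2) + (-16960) * a5 (q - 3) + (-176) * a5 (q - 4) := by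
  have h := s5_3 (8 * (2 * q + 1) - 1)
  rw [show (2 * (8 * (2 * q + 1) - 1) + 1 - 3 : ℤ) = 16 * (2 * q + 1) - 1 - 3 by ring] at h
  rw [h]
  simp only [b5_3_0 q, b5_3_1 q, b5_3_2 q, b5_3_3 q]
  ring

theorem b5_5_0 (q : ℤ) : a5 (32 * (2 * q + 1) - 1 - 0) = (-4480) * a5 (q - 0) + 84224 * a5 (q - 1) + 304640 * a5 (q - 2) + 44800 * a5 (q - 3) + (-3200) * a5 (q - 4) := by
  have h := s5_0 (16 * (2 * q + 1) - 1)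
  rw [show (2 * (16 * (2 * q + 1) - 1) + 1 - 0 : ℤ) = 32 * (2 * q + 1) - 1 - 0 by ring] at h
  rw [h]
  simp only [b5_4_0 q, b5_4_1 q, b5_4_2 q, b5_4_3 q]
  ring

theorem b5_5_1 (q : ℤ) : a5 (32 * (2 * q + 1) - 1 - 1) = 2176 * a5 (q - 0) + (-149760) * a5 (q - 1) + (-184320) * a5 (q - 2) + 67840 * a5 (q - 3) + 1920 * a5 (q - 4) := by
  have h := s5_1 (16 * (2 * q + 1) - 1)
  rw [show (2 * (16 * (2 * q + 1) - 1) + 1 - 1 : ℤ) = 32 * (2 * q + 1) - 1 - 1 by ring] at h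
  rw [h]
  simp only [b5_4_0 q, b5_4_1 q, b5_4_2 q, b5_4_3 q]
  ring

theorem b5_5_2 (q : ℤ) : a5 (32 * (2 * q + 1) - 1 - 2) = 1920 * a5 (q - 0) + 67840 * a5 (q - 1) + (-184320) * a5 (q - 2) + (-149760) * a5 (q - 3) + 2176 * a5 (q - 4) := by
  have h := s5_2 (16 * (2 * q + 1) - 1)
  rw [show (2 * (16 * (2 * q + 1) - 1) + 1 - 2 : ℤ) = 32 * (2 * q + 1) - 1 - 2 by ring] at h
  rw [h]
  simp only [b5_4_0 q, b5_4_1 q, b5_4_2 q, b5_4_3 q]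
  ring

theorem b5_5_3 (q : ℤ) : a5 (32 * (2 * q + 1) - 1 - 3) = (-3200) * a5 (q - 0) + 44800 * a5 (q - 1) + 304640 * a5 (q - 2) + 84224 * a5 (q - 3) + (-4480) * a5 (q - 4) := by
  have h := s5_3 (16 * (2 * q + 1) - 1)
  rw [show (2 * (16 * (2 * q + 1) - 1) + 1 - 3 : ℤ) = 32 * (2 * q + 1) - 1 - 3 by ring] at h
  rw [h]
  simp only [b5_4_0 q, b5_4_1 q, b5_4_2 q, b5_4_3 q]
  ring

end Pool.Agent.Work.MP_1a5b88_nt
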