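import Mathlib
import Pool.Agent.Work.MP_1a5b88_nt.Rec

set_option linter.unusedSimpArgs false

namespace Pool.Agent.Work.MP_1a5b88_nt

theorem s9_0 (N : ℤ) : a9 (2 * N + 1 - 0) = (-9) * a9 (N - 0) + (-84) * a9 (N - 1) + (-126) * a9 (N - 2) + (-36) * a9 (N - 3) + (-1) * a9 (N - 4) := by
  have h := a9_odd (N - 0)
  rw [show (2 * (N - 0) + 1 : ℤ) = 2 * N + 1 - 0 by ring] at h
  rw [h]
  ring_nf

theorem s9_1 (N : ℤ) : a9 (2 * N + 1 - 1) = 1 * a9 (N - 0) + 36 * a9 (N - 1) + 126 * a9 (N - 2) + 84 * a9 (N - 3) + 9 * a9 (N - 4) := by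
  have h := a9_even (N - 0)
  rw [show (2 * (N - 0) : ℤ) = 2 * N + 1 - 1 by ring] at h
  rw [h]
  ring_nf

theorem s9_2 (N : ℤ) : a9 (2 * N + 1 - 2) = (-9) * a9 (N - 1) + (-84) * a9 (N - 2) + (-126) * a9 (N - 3) + (-36) * a9 (N - 4) + (-1) * a9 (N - 5) := by
  have h := a9_odd (N - 1)
  rw [show (2 * (N - 1) + 1 : ℤ) = 2 * N + 1 - 2 by ring] at h
  rw [h]
  ring_nf

theorem s9_3 (N : ℤ) : a9 (2 * N + 1 - 3) = 1 * a9 (N - 1) + 36 * a9 (N - 2) + 126 * a9 (N - 3) + 84 * a9 (N - 4) + 9 * a9 (N - 5) := by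
  have h := a9_even (N - 1)
  rw [show (2 * (N - 1) : ℤ) = 2 * N + 1 - 3 by ring] at h
  rw [h]
  ring_nf

theorem s9_4 (N : ℤ) : a9 (2 * N + 1 - 4) = (-9) * a9 (N - 2) + (-84) * a9 (N - 3) + (-126) * a9 (N - 4) + (-36) * a9 (N - 5) + (-1) * a9 (N - 6) := by
  have h := a9_odd (N - 2)
  rw [show (2 * (N - 2) + 1 : ℤ) = 2 * N + 1 - 4 by ring] at h
  rw [h]
  ring_nf

theorem s9_5 (N : ℤ) : a9 (2 * N + 1 - 5) = 1 * a9 (N - 2) + 36 * a9 (N - 3) + 126 * a9 (N - 4) + 84 * a9 (N - 5) + 9 * a9 (N - 6) := by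
  have h := a9_even (N - 2)
  rw [show (2 * (N - 2) : ℤ) = 2 * N + 1 - 5 by ring] at h
  rw [h]
  ring_nf

theorem s9_6 (N : ℤ) : a9 (2 * N + 1 - 6) = (-9) * a9 (N - 3) + (-84) * a9 (N - 4) + (-126) * a9 (N - 5) + (-36) * a9 (N - 6) + (-1) * a9 (N - 7) := by
  have h := a9_odd (N - 3)
  rw [show (2 * (N - 3) + 1 : ℤ) = 2 * N + 1 - 6 by ring] at h
  rw [h]
  ring_nf

theorem s9_7 (N : ℤ) : a9 (2 * N + 1 - 7) = 1 * a9 (N - 3) + 36 * a9 (N - 4) + 126 * a9 (N - 5) + 84 * a9 (N - 6) + 9 * a9 (N - 7) := by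
  have h := a9_even (N - 3)
  rw [show (2 * (N - 3) : ℤ) = 2 * N + 1 - 7 by ring] at h
  rw [h]
  ring_nf

theorem e9_0 (N : ℤ) : a9 (2 * N - 0) = 1 * a9 (N - 0) + 36 * a9 (N - 1) + 126 * a9 (N - 2) + 84 * a9 (N - 3) + 9 * a9 (N - 4) := by
  have h := a9_even (N - 0)
  rw [show (2 * (N - 0) : ℤ) = 2 * N - 0 by ring] at h
  rw [h]
  ring_nf

theorem e9_1 (N : ℤ) : a9 (2 * N - 1) = (-9) * a9 (N - 1) + (-84) * a9 (N - 2) + (-126) * a9 (N - 3) + (-36) * a9 (N - 4) + (-1) * a9 (N - 5) := by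
  have h := a9_odd (N - 1)
  rw [show (2 * (N - 1) + 1 : ℤ) = 2 * N - 1 by ring] at h
  rw [h]
  ring_nf

theorem e9_2 (N : ℤ) : a9 (2 * N - 2) = 1 * a9 (N - 1) + 36 * a9 (N - 2) + 126 * a9 (N - 3) + 84 * a9 (N - 4) + 9 * a9 (N - 5) := by
  have h := a9_even (N - 1)
  rw [show (2 * (N - 1) : ℤ) = 2 * N - 2 by ring] at h
  rw [h]
  ring_nf

theorem e9_3 (N : ℤ) : a9 (2 * N - 3) = (-9) * a9 (N - 2) + (-84) * a9 (N - 3) + (-126) * a9 (N - 4) + (-36) * a9 (N - 5) + (-1) * a9 (N - 6) := by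
  have h := a9_odd (N - 2)
  rw [show (2 * (N - 2) + 1 : ℤ) = 2 * N - 3 by ring] at h
  rw [h]
  ring_nf

theorem e9_4 (N : ℤ) : a9 (2 * N - 4) = 1 * a9 (N - 2) + 36 * a9 (N - 3) + 126 * a9 (N - 4) + 84 * a9 (N - 5) + 9 * a9 (N - 6) := by
  have h := a9_even (N - 2)
  rw [show (2 * (N - 2) : ℤ) = 2 * N - 4 by ring] at h
  rw [h]
  ring_nf

theorem e9_5 (N : ℤ) : a9 (2 * N - 5) = (-9) * a9 (N - 3) + (-84) * a9 (N - 4) + (-126) * a9 (N - 5) + (-36) * a9 (N - 6) + (-1) * a9 (N - 7) := by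
  have h := a9_odd (N - 3)
  rw [show (2 * (N - 3) + 1 : ℤ) = 2 * N - 5 by ring] at h
  rw [h]
  ring_nf

theorem e9_6 (N : ℤ) : a9 (2 * N - 6) = 1 * a9 (N - 3) + 36 * a9 (N - 4) + 126 * a9 (N - 5) + 84 * a9 (N - 6) + 9 * a9 (N - 7) := by
  have h := a9_even (N - 3)
  rw [show (2 * (N - 3) : ℤ) = 2 * N - 6 by ring] at h
  rw [h]
  ring_nf

theorem e9_7 (N : ℤ) : a9 (2 * N - 7) = (-9) * a9 (N - 4) + (-84) * a9 (N - 5) + (-126) * a9 (N - 6) + (-36) * a9 (N - 7) + (-1) * a9 (N - 8) := by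
  have h := a9_odd (N - 4)
  rw [show (2 * (N - 4) + 1 : ℤ) = 2 * N - 7 by ring] at h
  rw [h]
  ring_nf

theorem p9_1_0 (N : ℤ) : a9 (4 * N + 3 - 0) = (-3) * a9 (N - 0) + (-1170) * a9 (N - 1) + (-153) * a9 (N - 2) + 4692 * a9 (N - 3) + 891 * a9 (N - 4) + (-162) * a9 (N - 5) + 1 * a9 (N - 6) := by
  have h := s9_0 (2 * N + 1)
  rw [show (2 * (2 * N + 1) + 1 - 0 : ℤ) = 4 * N + 3 - 0 by ring] at h
  rw [h]
  simp only [s9_0 N, s9_1 N, s9_2 N, s9_3 N, s9_4 N, s9_5 N, s9_6 N, s9_7 N]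
  ring

theorem p9_1_1 (N : ℤ) : a9 (4 * N + 3 - 1) = 27 * a9 (N - 0) + 162 * a9 (N - 1) + (-3231) * a9 (N - 2) + (-3060) * a9 (N - 3) + 1709 * a9 (N - 4) + 306 * a9 (N - 5) + (-9) * a9 (N - 6) := by
  have h := s9_1 (2 * N + 1)
  rw [show (2 * (2 * N + 1) + 1 - 1 : ℤ) = 4 * N + 3 - 1 by ring] at h
  rw [h]
  simp only [s9_0 N, s9_1 N, s9_2 N, s9_3 N, s9_4 N, s9_5 N, s9_6 N, s9_7 N]
  ring

theorem p9_1_2 (N : ℤ) : a9 (4 * N + 3 - 2) = (-9) * a9 (N - 0) + 306 * a9 (N - 1) + 1709 * a9 (N - 2) + (-3060) * a9 (N - 3) + (-3231) * a9 (N - 4) + 162 * a9 (N - 5) + 27 * a9 (N - 6) := by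
  have h := s9_2 (2 * N + 1)
  rw [show (2 * (2 * N + 1) + 1 - 2 : ℤ) = 4 * N + 3 - 2 by ring] at h
  rw [h]
  simp only [s9_0 N, s9_1 N, s9_2 N, s9_3 N, s9_4 N, s9_5 N, s9_6 N, s9_7 N]
  ring

theorem p9_1_3 (N : ℤ) : a9 (4 * N + 3 - 3) = 1 * a9 (N - 0) + (-162) * a9 (N - 1) + 891 * a9 (N - 2) + 4692 * a9 (N - 3) + (-153) * a9 (N - 4) + (-1170) * a9 (N - 5) + (-3) * a9 (N - 6) := by
  have h := s9_3 (2 * N + 1)
  rw [show (2 * (2 * N + 1) + 1 - 3 : ℤ) = 4 * N + 3 - 3 by ring] at h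
  rw [h]
  simp only [s9_0 N, s9_1 N, s9_2 N, s9_3 N, s9_4 N, s9_5 N, s9_6 N, s9_7 N]
  ring

theorem p9_1_4 (N : ℤ) : a9 (4 * N + 3 - 4) = (-3) * a9 (N - 1) + (-1170) * a9 (N - 2) + (-153) * a9 (N - 3) + 4692 * a9 (N - 4) + 891 * a9 (N - 5) + (-162) * a9 (N - 6) + 1 * a9 (N - 7) := by
  have h := s9_4 (2 * N + 1)
  rw [show (2 * (2 * N + 1) + 1 - 4 : ℤ) = 4 * N + 3 - 4 by ring] at h
  rw [h]
  simp only [s9_0 N, s9_1 N, s9_2 N, s9_3 N, s9_4 N, s9_5 N, s9_6 N, s9_7 N]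
  ring

theorem p9_1_5 (N : ℤ) : a9 (4 * N + 3 - 5) = 27 * a9 (N - 1) + 162 * a9 (N - 2) + (-3231) * a9 (N - 3) + (-3060) * a9 (N - 4) + 1709 * a9 (N - 5) + 306 * a9 (N - 6) + (-9) * a9 (N - 7) := by
  have h := s9_5 (2 * N + 1)
  rw [show (2 * (2 * N + 1) + 1 - 5 : ℤ) = 4 * N + 3 - 5 by ring] at h
  rw [h]
  simp only [s9_0 N, s9_1 N, s9_2 N, s9_3 N, s9_4 N, s9_5 N, s9_6 N, s9_7 N]
  ring

theorem p9_1_6 (N : ℤ) : a9 (4 * N + 3 - 6) = (-9) * a9 (N - 1) + 306 * a9 (N - 2) + 1709 * a9 (N - 3) + (-3060) * a9 (N - 4) + (-3231) * a9 (N - 5) + 162 * a9 (N - 6) + 27 * a9 (N - 7) := by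
  have h := s9_6 (2 * N + 1)
  rw [show (2 * (2 * N + 1) + 1 - 6 : ℤ) = 4 * N + 3 - 6 by ring] at h
  rw [h]
  simp only [s9_0 N, s9_1 N, s9_2 N, s9_3 N, s9_4 N, s9_5 N, s9_6 N, s9_7 N]
  ring

theorem p9_1_7 (N : ℤ) : a9 (4 * N + 3 - 7) = 1 * a9 (N - 1) + (-162) * a9 (N - 2) + 891 * a9 (N - 3) + 4692 * a9 (N - 4) + (-153) * a9 (N - 5) + (-1170) * a9 (N - 6) + (-3) * a9 (N - 7) := by
  have h := s9_7 (2 * N + 1)
  rw [show (2 * (2 * N + 1) + 1 - 7 : ℤ) = 4 * N + 3 - 7 by ring] at h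
  rw [h]
  simp only [s9_0 N, s9_1 N, s9_2 N, s9_3 N, s9_4 N, s9_5 N, s9_6 N, s9_7 N]
  ring

theorem p9_2_0 (N : ℤ) : a9 (16 * N + 15 - 0) = (-25512) * a9 (N - 0) + (-1000008) * a9 (N - 1) + 6631416 * a9 (N - 2) + 26437976 * a9 (N - 3) + 2447496 * a9 (N - 4) + (-5358168) * a9 (N - 5) + (-201432) * a9 (N - 6) + 2376 * a9 (N - 7) := by
  have h := p9_1_0 (4 * N + 3)
  rw [show (4 * (4 * N + 3) + 3 - 0 : ℤ) = 16 * N + 15 - 0 by ring] at h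
  rw [h]
  simp only [p9_1_0 N, p9_1_1 N, p9_1_2 N, p9_1_3 N, p9_1_4 N, p9_1_5 N, p9_1_6 N, p9_1_7 N]
  ring

theorem p9_2_1 (N : ℤ) : a9 (16 * N + 15 - 1) = 30312 * a9 (N - 0) + (-495096) * a9 (N - 1) + (-10728504) * a9 (N - 2) + (-6105240) * a9 (N - 3) + 18318264 * a9 (N - 4) + 5176728 * a9 (N - 5) + (-264168) * a9 (N - 6) + (-1288) * a9 (N - 7) := by
  have h := p9_1_1 (4 * N + 3)
  rw [show (4 * (4 * N + 3) + 3 - 1 : ℤ) = 16 * N + 15 - 1 by ring] at h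
  rw [h]
  simp only [p9_1_0 N, p9_1_1 N, p9_1_2 N, p9_1_3 N, p9_1_4 N, p9_1_5 N, p9_1_6 N, p9_1_7 N]
  ring

theorem p9_2_2 (N : ℤ) : a9 (16 * N + 15 - 2) = (-10152) * a9 (N - 0) + 1092600 * a9 (N - 1) + 3021688 * a9 (N - 2) + (-20548584) * a9 (N - 3) + (-20276856) * a9 (N - 4) + 1262952 * a9 (N - 5) + 629928 * a9 (N - 6) + (-3960) * a9 (N - 7) := by
  have h := p9_1_2 (4 * N + 3)
  rw [show (4 * (4 * N + 3) + 3 - 2 : ℤ) = 16 * N + 15 - 2 by ring] at h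
  rw [h]
  simp only [p9_1_0 N, p9_1_1 N, p9_1_2 N, p9_1_3 N, p9_1_4 N, p9_1_5 N, p9_1_6 N, p9_1_7 N]
  ring

theorem p9_2_3 (N : ℤ) : a9 (16 * N + 15 - 3) = (-7704) * a9 (N - 0) + (-545976) * a9 (N - 1) + 6215112 * a9 (N - 2) + 23587368 * a9 (N - 3) + (-1001160) * a9 (N - 4) + (-7521192) * a9 (N - 5) + (-322280) * a9 (N - 6) + 10296 * a9 (N - 7) := by
  have h := p9_1_3 (4 * N + 3)
  rw [show (4 * (4 * N + 3) + 3 - 3 : ℤ) = 16 * N + 15 - 3 by ring] at h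
  rw [h]
  simp only [p9_1_0 N, p9_1_1 N, p9_1_2 N, p9_1_3 N, p9_1_4 N, p9_1_5 N, p9_1_6 N, p9_1_7 N]
  ring

theorem p9_2_4 (N : ℤ) : a9 (16 * N + 15 - 4) = 10296 * a9 (N - 0) + (-322280) * a9 (N - 1) + (-7521192) * a9 (N - 2) + (-1001160) * a9 (N - 3) + 23587368 * a9 (N - 4) + 6215112 * a9 (N - 5) + (-545976) * a9 (N - 6) + (-7704) * a9 (N - 7) := by
  have h := p9_1_4 (4 * N + 3)
  rw [show (4 * (4 * N + 3) + 3 - 4 : ℤ) = 16 * N + 15 - 4 by ring] at h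
  rw [h]
  simp only [p9_1_0 N, p9_1_1 N, p9_1_2 N, p9_1_3 N, p9_1_4 N, p9_1_5 N, p9_1_6 N, p9_1_7 N]
  ring

theorem p9_2_5 (N : ℤ) : a9 (16 * N + 15 - 5) = (-3960) * a9 (N - 0) + 629928 * a9 (N - 1) + 1262952 * a9 (N - 2) + (-20276856) * a9 (N - 3) + (-20548584) * a9 (N - 4) + 3021688 * a9 (N - 5) + 1092600 * a9 (N - 6) + (-10152) * a9 (N - 7) := by
  have h := p9_1_5 (4 * N + 3)
  rw [show (4 * (4 * N + 3) + 3 - 5 : ℤ) = 16 * N + 15 - 5 by ring] at h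
  rw [h]
  simp only [p9_1_0 N, p9_1_1 N, p9_1_2 N, p9_1_3 N, p9_1_4 N, p9_1_5 N, p9_1_6 N, p9_1_7 N]
  ring

theorem p9_2_6 (N : ℤ) : a9 (16 * N + 15 - 6) = (-1288) * a9 (N - 0) + (-264168) * a9 (N - 1) + 5176728 * a9 (N - 2) + 18318264 * a9 (N - 3) + (-6105240) * a9 (N - 4) + (-10728504) * a9 (N - 5) + (-495096) * a9 (N - 6) + 30312 * a9 (N - 7) := by
  have h := p9_1_6 (4 * N + 3)
  rw [show (4 * (4 * N + 3) + 3 - 6 : ℤ) = 16 * N + 15 - 6 by ring] at h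
  rw [h]
  simp only [p9_1_0 N, p9_1_1 N, p9_1_2 N, p9_1_3 N, p9_1_4 N, p9_1_5 N, p9_1_6 N, p9_1_7 N]
  ring

theorem p9_2_7 (N : ℤ) : a9 (16 * N + 15 - 7) = 2376 * a9 (N - 0) + (-201432) * a9 (N - 1) + (-5358168) * a9 (N - 2) + 2447496 * a9 (N - 3) + 26437976 * a9 (N - 4) + 6631416 * a9 (N - 5) + (-1000008) * a9 (N - 6) + (-25512) * a9 (N - 7) := by
  have h := p9_1_7 (4 * N + 3)
  rw [show (4 * (4 * N + 3) + 3 - 7 : ℤ) = 16 * N + 15 - 7 by ring] at h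
  rw [h]
  simp only [p9_1_0 N, p9_1_1 N, p9_1_2 N, p9_1_3 N, p9_1_4 N, p9_1_5 N, p9_1_6 N, p9_1_7 N]
  ring

theorem p9_3_0 (N : ℤ) : a9 (64 * N + 63 - 0) = (-60168448) * a9 (N - 0) + (-2536088832) * a9 (N - 1) + 34330639104 * a9 (N - 2) + 123290816256 * a9 (N - 3) + 1304315136 * a9 (N - 4) + (-36485938944) * a9 (N - 5) + (-1962796800) * a9 (N - 6) + 45225216 * a9 (N - 7) := by
  have h := p9_2_0 (4 * N + 3)
  rw [show (16 * (4 * N + 3) + 15 - 0 : ℤ) = 64 * N + 63 - 0 by ring] at h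
  rw [h]
  simp only [p9_1_0 N, p9_1_1 N, p9_1_2 N, p9_1_3 N, p9_1_4 N, p9_1_5 N, p9_1_6 N, p9_1_7 N]
  ring

theorem p9_3_1 (N : ℤ) : a9 (64 * N + 63 - 1) = 76992768 * a9 (N - 0) + (-2322350848) * a9 (N - 1) + (-42854130432) * a9 (N - 2) + (-14140659456) * a9 (N - 3) + 105689604864 * a9 (N - 4) + 31271028480 * a9 (N - 5) + (-1691635968) * a9 (N - 6) + (-35400960) * a9 (N - 7) := by
  have h := p9_2_1 (4 * N + 3)
  rw [show (16 * (4 * N + 3) + 15 - 1 : ℤ) = 64 * N + 63 - 1 by ring] at h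
  rw [h]
  simp only [p9_1_0 N, p9_1_1 N, p9_1_2 N, p9_1_3 N, p9_1_4 N, p9_1_5 N, p9_1_6 N, p9_1_7 N]
  ring

theorem p9_3_2 (N : ℤ) : a9 (64 * N + 63 - 2) = (-18213120) * a9 (N - 0) + 4531643136 * a9 (N - 1) + 7448558336 * a9 (N - 2) + (-108956530944) * a9 (N - 3) + (-105710734080) * a9 (N - 4) + 6924351744 * a9 (N - 5) + 3911383296 * a9 (N - 6) + (-14623488) * a9 (N - 7) := by
  have h := p9_2_2 (4 * N + 3)
  rw [show (16 * (4 * N + 3) + 15 - 2 : ℤ) = 64 * N + 63 - 2 by ring] at h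
  rw [h]
  simp only [p9_1_0 N, p9_1_1 N, p9_1_2 N, p9_1_3 N, p9_1_4 N, p9_1_5 N, p9_1_6 N, p9_1_7 N]
  ring

theorem p9_3_3 (N : ℤ) : a9 (64 * N + 63 - 3) = (-47066880) * a9 (N - 0) + (-2195921664) * a9 (N - 1) + 33255836928 * a9 (N - 2) + 117200773376 * a9 (N - 3) + (-5277940992) * a9 (N - 4) + (-39462232320) * a9 (N - 5) + (-2101600512) * a9 (N - 6) + 57957120 * a9 (N - 7) := by
  have h := p9_2_3 (4 * N + 3)
  rw [show (16 * (4 * N + 3) + 15 - 3 : ℤ) = 64 * N + 63 - 3 by ring] at h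
  rw [h]
  simp only [p9_1_0 N, p9_1_1 N, p9_1_2 N, p9_1_3 N, p9_1_4 N, p9_1_5 N, p9_1_6 N, p9_1_7 N]
  ring

theorem p9_3_4 (N : ℤ) : a9 (64 * N + 63 - 4) = 57957120 * a9 (N - 0) + (-2101600512) * a9 (N - 1) + (-39462232320) * a9 (N - 2) + (-5277940992) * a9 (N - 3) + 117200773376 * a9 (N - 4) + 33255836928 * a9 (N - 5) + (-2195921664) * a9 (N - 6) + (-47066880) * a9 (N - 7) := by
  have h := p9_2_4 (4 * N + 3)
  rw [show (16 * (4 * N + 3) + 15 - 4 : ℤ) = 64 * N + 63 - 4 by ring] at h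
  rw [h]
  simp only [p9_1_0 N, p9_1_1 N, p9_1_2 N, p9_1_3 N, p9_1_4 N, p9_1_5 N, p9_1_6 N, p9_1_7 N]
  ring

theorem p9_3_5 (N : ℤ) : a9 (64 * N + 63 - 5) = (-14623488) * a9 (N - 0) + 3911383296 * a9 (N - 1) + 6924351744 * a9 (N - 2) + (-105710734080) * a9 (N - 3) + (-108956530944) * a9 (N - 4) + 7448558336 * a9 (N - 5) + 4531643136 * a9 (N - 6) + (-18213120) * a9 (N - 7) := by
  have h := p9_2_5 (4 * N + 3)
  rw [show (16 * (4 * N + 3) + 15 - 5 : ℤ) = 64 * N + 63 - 5 by ring] at h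
  rw [h]
  simp only [p9_1_0 N, p9_1_1 N, p9_1_2 N, p9_1_3 N, p9_1_4 N, p9_1_5 N, p9_1_6 N, p9_1_7 N]
  ring

theorem p9_3_6 (N : ℤ) : a9 (64 * N + 63 - 6) = (-35400960) * a9 (N - 0) + (-1691635968) * a9 (N - 1) + 31271028480 * a9 (N - 2) + 105689604864 * a9 (N - 3) + (-14140659456) * a9 (N - 4) + (-42854130432) * a9 (N - 5) + (-2322350848) * a9 (N - 6) + 76992768 * a9 (N - 7) := by
  have h := p9_2_6 (4 * N + 3)
  rw [show (16 * (4 * N + 3) + 15 - 6 : ℤ) = 64 * N + 63 - 6 by ring] at h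
  rw [h]
  simp only [p9_1_0 N, p9_1_1 N, p9_1_2 N, p9_1_3 N, p9_1_4 N, p9_1_5 N, p9_1_6 N, p9_1_7 N]
  ring

theorem p9_3_7 (N : ℤ) : a9 (64 * N + 63 - 7) = 45225216 * a9 (N - 0) + (-1962796800) * a9 (N - 1) + (-36485938944) * a9 (N - 2) + 1304315136 * a9 (N - 3) + 123290816256 * a9 (N - 4) + 34330639104 * a9 (N - 5) + (-2536088832) * a9 (N - 6) + (-60168448) * a9 (N - 7) := by
  have h := p9_2_7 (4 * N + 3)
  rw [show (16 * (4 * N + 3) + 15 - 7 : ℤ) = 64 * N + 63 - 7 by ring] at h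
  rw [h]
  simp only [p9_1_0 N, p9_1_1 N, p9_1_2 N, p9_1_3 N, p9_1_4 N, p9_1_5 N, p9_1_6 N, p9_1_7 N]
  ring

theorem p9_4_0 (N : ℤ) : a9 (256 * N + 255 - 0) = (-253978828800) * a9 (N - 0) + (-10779708874752) * a9 (N - 1) + 168681775177728 * a9 (N - 2) + 595279260131328 * a9 (N - 3) + (-10188401025024) * a9 (N - 4) + (-194312435245056) * a9 (N - 5) + (-11167063515136) * a9 (N - 6) + 276546576384 * a9 (N - 7) := by
  have h := p9_3_0 (4 * N + 3)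
  rw [show (64 * (4 * N + 3) + 63 - 0 : ℤ) = 256 * N + 255 - 0 by ring] at h
  rw [h]
  simp only [p9_1_0 N, p9_1_1 N, p9_1_2 N, p9_1_3 N, p9_1_4 N, p9_1_5 N, p9_1_6 N, p9_1_7 N]
  ring

theorem p9_4_1 (N : ℤ) : a9 (256 * N + 255 - 1) = 308612063232 * a9 (N - 0) + (-10746441179136) * a9 (N - 1) + (-197448137515008) * a9 (N - 2) + (-47876442071040) * a9 (N - 3) + 541941502910464 * a9 (N - 4) + 161961808011264 * a9 (N - 5) + (-8879068569600) * a9 (N - 6) + (-221317619712) * a9 (N - 7) := by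
  have h := p9_3_1 (4 * N + 3)
  rw [show (64 * (4 * N + 3) + 63 - 1 : ℤ) = 256 * N + 255 - 1 by ring] at h
  rw [h]
  simp only [p9_1_0 N, p9_1_1 N, p9_1_2 N, p9_1_3 N, p9_1_4 N, p9_1_5 N, p9_1_6 N, p9_1_7 N]
  ring

theorem p9_4_2 (N : ℤ) : a9 (256 * N + 255 - 2) = (-53584551936) * a9 (N - 0) + 21154525028352 * a9 (N - 1) + 27012920909824 * a9 (N - 2) + (-547496229298176) * a9 (N - 3) + (-528888319451136) * a9 (N - 4) + 35085452009472 * a9 (N - 5) + 20381921796096 * a9 (N - 6) + (-62378680320) * a9 (N - 7) := by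
  have h := p9_3_2 (4 * N + 3)
  rw [show (64 * (4 * N + 3) + 63 - 2 : ℤ) = 256 * N + 255 - 2 by ring] at h
  rw [h]
  simp only [p9_1_0 N, p9_1_1 N, p9_1_2 N, p9_1_3 N, p9_1_4 N, p9_1_5 N, p9_1_6 N, p9_1_7 N]
  ring

theorem p9_4_3 (N : ℤ) : a9 (256 * N + 255 - 3) = (-241250443264) * a9 (N - 0) + (-10141584334848) * a9 (N - 1) + 167492169031680 * a9 (N - 2) + 579411852288000 * a9 (N - 3) + (-26482930016256) * a9 (N - 4) + (-197763983106048) * a9 (N - 5) + (-11062664257536) * a9 (N - 6) + 292965064704 * a9 (N - 7) := by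
  have h := p9_3_3 (4 * N + 3)
  rw [show (64 * (4 * N + 3) + 63 - 3 : ℤ) = 256 * N + 255 - 3 by ring] at h
  rw [h]
  simp only [p9_1_0 N, p9_1_1 N, p9_1_2 N, p9_1_3 N, p9_1_4 N, p9_1_5 N, p9_1_6 N, p9_1_7 N]
  ring

theorem p9_4_4 (N : ℤ) : a9 (256 * N + 255 - 4) = 292965064704 * a9 (N - 0) + (-11062664257536) * a9 (N - 1) + (-197763983106048) * a9 (N - 2) + (-26482930016256) * a9 (N - 3) + 579411852288000 * a9 (N - 4) + 167492169031680 * a9 (N - 5) + (-10141584334848) * a9 (N - 6) + (-241250443264) * a9 (N - 7) := by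
  have h := p9_3_4 (4 * N + 3)
  rw [show (64 * (4 * N + 3) + 63 - 4 : ℤ) = 256 * N + 255 - 4 by ring] at h
  rw [h]
  simp only [p9_1_0 N, p9_1_1 N, p9_1_2 N, p9_1_3 N, p9_1_4 N, p9_1_5 N, p9_1_6 N, p9_1_7 N]
  ring

theorem p9_4_5 (N : ℤ) : a9 (256 * N + 255 - 5) = (-62378680320) * a9 (N - 0) + 20381921796096 * a9 (N - 1) + 35085452009472 * a9 (N - 2) + (-528888319451136) * a9 (N - 3) + (-547496229298176) * a9 (N - 4) + 27012920909824 * a9 (N - 5) + 21154525028352 * a9 (N - 6) + (-53584551936) * a9 (N - 7) := by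
  have h := p9_3_5 (4 * N + 3)
  rw [show (64 * (4 * N + 3) + 63 - 5 : ℤ) = 256 * N + 255 - 5 by ring] at h
  rw [h]
  simp only [p9_1_0 N, p9_1_1 N, p9_1_2 N, p9_1_3 N, p9_1_4 N, p9_1_5 N, p9_1_6 N, p9_1_7 N]
  ring

theorem p9_4_6 (N : ℤ) : a9 (256 * N + 255 - 6) = (-221317619712) * a9 (N - 0) + (-8879068569600) * a9 (N - 1) + 161961808011264 * a9 (N - 2) + 541941502910464 * a9 (N - 3) + (-47876442071040) * a9 (N - 4) + (-197448137515008) * a9 (N - 5) + (-10746441179136) * a9 (N - 6) + 308612063232 * a9 (N - 7) := by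
  have h := p9_3_6 (4 * N + 3)
  rw [show (64 * (4 * N + 3) + 63 - 6 : ℤ) = 256 * N + 255 - 6 by ring] at h
  rw [h]
  simp only [p9_1_0 N, p9_1_1 N, p9_1_2 N, p9_1_3 N, p9_1_4 N, p9_1_5 N, p9_1_6 N, p9_1_7 N]
  ring

theorem p9_4_7 (N : ℤ) : a9 (256 * N + 255 - 7) = 276546576384 * a9 (N - 0) + (-11167063515136) * a9 (N - 1) + (-194312435245056) * a9 (N - 2) + (-10188401025024) * a9 (N - 3) + 595279260131328 * a9 (N - 4) + 168681775177728 * a9 (N - 5) + (-10779708874752) * a9 (N - 6) + (-253978828800) * a9 (N - 7) := by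
  have h := p9_3_7 (4 * N + 3)
  rw [show (64 * (4 * N + 3) + 63 - 7 : ℤ) = 256 * N + 255 - 7 by ring] at h
  rw [h]
  simp only [p9_1_0 N, p9_1_1 N, p9_1_2 N, p9_1_3 N, p9_1_4 N, p9_1_5 N, p9_1_6 N, p9_1_7 N]
  ring

theorem ch9_0 (N : ℤ) : a9 (256 * N + 255 - 0) = 6560 * a9 (64 * N + 63 - 0) + (-8472576) * a9 (16 * N + 15 - 0) + 2235564032 * a9 (4 * N + 3 - 0) + (-68719476736) * a9 (N - 0) := by
  rw [p9_4_0, p9_3_0, p9_2_0, p9_1_0]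
  ring

theorem ch9_1 (N : ℤ) : a9 (256 * N + 255 - 1) = 6560 * a9 (64 * N + 63 - 1) + (-8472576) * a9 (16 * N + 15 - 1) + 2235564032 * a9 (4 * N + 3 - 1) + (-68719476736) * a9 (N - 1) := by
  rw [p9_4_1, p9_3_1, p9_2_1, p9_1_1]
  ring

theorem ch9_2 (N : ℤ) : a9 (256 * N + 255 - 2) = 6560 * a9 (64 * N + 63 - 2) + (-8472576) * a9 (16 * N + 15 - 2) + 2235564032 * a9 (4 * N + 3 - 2) + (-68719476736) * a9 (N - 2) := by
  rw [p9_4_2, p9_3_2, p9_2_2, p9_1_2]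
  ring

theorem ch9_3 (N : ℤ) : a9 (256 * N + 255 - 3) = 6560 * a9 (64 * N + 63 - 3) + (-8472576) * a9 (16 * N + 15 - 3) + 2235564032 * a9 (4 * N + 3 - 3) + (-68719476736) * a9 (N - 3) := by
  rw [p9_4_3, p9_3_3, p9_2_3, p9_1_3]
  ring

theorem ch9_4 (N : ℤ) : a9 (256 * N + 255 - 4) = 6560 * a9 (64 * N + 63 - 4) + (-8472576) * a9 (16 * N + 15 - 4) + 2235564032 * a9 (4 * N + 3 - 4) + (-68719476736) * a9 (N - 4) := by
  rw [p9_4_4, p9_3_4, p9_2_4, p9_1_4]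
  ring

theorem ch9_5 (N : ℤ) : a9 (256 * N + 255 - 5) = 6560 * a9 (64 * N + 63 - 5) + (-8472576) * a9 (16 * N + 15 - 5) + 2235564032 * a9 (4 * N + 3 - 5) + (-68719476736) * a9 (N - 5) := by
  rw [p9_4_5, p9_3_5, p9_2_5, p9_1_5]
  ring

theorem ch9_6 (N : ℤ) : a9 (256 * N + 255 - 6) = 6560 * a9 (64 * N + 63 - 6) + (-8472576) * a9 (16 * N + 15 - 6) + 2235564032 * a9 (4 * N + 3 - 6) + (-68719476736) * a9 (N - 6) := by
  rw [p9_4_6, p9_3_6, p9_2_6, p9_1_6]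
  ring

theorem ch9_7 (N : ℤ) : a9 (256 * N + 255 - 7) = 6560 * a9 (64 * N + 63 - 7) + (-8472576) * a9 (16 * N + 15 - 7) + 2235564032 * a9 (4 * N + 3 - 7) + (-68719476736) * a9 (N - 7) := by
  rw [p9_4_7, p9_3_7, p9_2_7, p9_1_7]
  ring

theorem b9_1_0 (q : ℤ) : a9 (2 * (2 * q + 1) - 1 - 0) = (-9) * a9 (q - 0) + 306 * a9 (q - 1) + 1709 * a9 (q - 2) + (-3060) * a9 (q - 3) + (-3231) * a9 (q - 4) + 162 * a9 (q - 5) + 27 * a9 (q - 6) := by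
  have h := s9_0 (2 * q)
  rw [show (2 * (2 * q) + 1 - 0 : ℤ) = 2 * (2 * q + 1) - 1 - 0 by ring] at h
  rw [h]
  simp only [e9_0 q, e9_1 q, e9_2 q, e9_3 q, e9_4 q, e9_5 q, e9_6 q, e9_7 q]
  ring

theorem b9_1_1 (q : ℤ) : a9 (2 * (2 * q + 1) - 1 - 1) = 1 * a9 (q - 0) + (-162) * a9 (q - 1) + 891 * a9 (q - 2) + 4692 * a9 (q - 3) + (-153) * a9 (q - 4) + (-1170) * a9 (q - 5) + (-3) * a9 (q - 6) := by
  have h := s9_1 (2 * q)
  rw [show (2 * (2 * q) + 1 - 1 : ℤ) = 2 * (2 * q + 1) - 1 - 1 by ring] at h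
  rw [h]
  simp only [e9_0 q, e9_1 q, e9_2 q, e9_3 q, e9_4 q, e9_5 q, e9_6 q, e9_7 q]
  ring

theorem b9_1_2 (q : ℤ) : a9 (2 * (2 * q + 1) - 1 - 2) = (-3) * a9 (q - 1) + (-1170) * a9 (q - 2) + (-153) * a9 (q - 3) + 4692 * a9 (q - 4) + 891 * a9 (q - 5) + (-162) * a9 (q - 6) + 1 * a9 (q - 7) := by
  have h := s9_2 (2 * q)
  rw [show (2 * (2 * q) + 1 - 2 : ℤ) = 2 * (2 * q + 1) - 1 - 2 by ring] at h
  rw [h]
  simp only [e9_0 q, e9_1 q, e9_2 q, e9_3 q, e9_4 q, e9_5 q, e9_6 q, e9_7 q]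
  ring

theorem b9_1_3 (q : ℤ) : a9 (2 * (2 * q + 1) - 1 - 3) = 27 * a9 (q - 1) + 162 * a9 (q - 2) + (-3231) * a9 (q - 3) + (-3060) * a9 (q - 4) + 1709 * a9 (q - 5) + 306 * a9 (q - 6) + (-9) * a9 (q - 7) := by
  have h := s9_3 (2 * q)
  rw [show (2 * (2 * q) + 1 - 3 : ℤ) = 2 * (2 * q + 1) - 1 - 3 by ring] at h
  rw [h]
  simp only [e9_0 q, e9_1 q, e9_2 q, e9_3 q, e9_4 q, e9_5 q, e9_6 q, e9_7 q]
  ring

theorem b9_1_4 (q : ℤ) : a9 (2 * (2 * q + 1) - 1 - 4) = (-9) * a9 (q - 1) + 306 * a9 (q - 2) + 1709 * a9 (q - 3) + (-3060) * a9 (q - 4) + (-3231) * a9 (q - 5) + 162 * a9 (q - 6) + 27 * a9 (q - 7) := by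
  have h := s9_4 (2 * q)
  rw [show (2 * (2 * q) + 1 - 4 : ℤ) = 2 * (2 * q + 1) - 1 - 4 by ring] at h
  rw [h]
  simp only [e9_0 q, e9_1 q, e9_2 q, e9_3 q, e9_4 q, e9_5 q, e9_6 q, e9_7 q]
  ring

theorem b9_1_5 (q : ℤ) : a9 (2 * (2 * q + 1) - 1 - 5) = 1 * a9 (q - 1) + (-162) * a9 (q - 2) + 891 * a9 (q - 3) + 4692 * a9 (q - 4) + (-153) * a9 (q - 5) + (-1170) * a9 (q - 6) + (-3) * a9 (q - 7) := by
  have h := s9_5 (2 * q)
  rw [show (2 * (2 * q) + 1 - 5 : ℤ) = 2 * (2 * q + 1) - 1 - 5 by ring] at h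
  rw [h]
  simp only [e9_0 q, e9_1 q, e9_2 q, e9_3 q, e9_4 q, e9_5 q, e9_6 q, e9_7 q]
  ring

theorem b9_1_6 (q : ℤ) : a9 (2 * (2 * q + 1) - 1 - 6) = (-3) * a9 (q - 2) + (-1170) * a9 (q - 3) + (-153) * a9 (q - 4) + 4692 * a9 (q - 5) + 891 * a9 (q - 6) + (-162) * a9 (q - 7) + 1 * a9 (q - 8) := by
  have h := s9_6 (2 * q)
  rw [show (2 * (2 * q) + 1 - 6 : ℤ) = 2 * (2 * q + 1) - 1 - 6 by ring] at h
  rw [h]
  simp only [e9_0 q, e9_1 q, e9_2 q, e9_3 q, e9_4 q, e9_5 q, e9_6 q, e9_7 q]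
  ring

theorem b9_1_7 (q : ℤ) : a9 (2 * (2 * q + 1) - 1 - 7) = 27 * a9 (q - 2) + 162 * a9 (q - 3) + (-3231) * a9 (q - 4) + (-3060) * a9 (q - 5) + 1709 * a9 (q - 6) + 306 * a9 (q - 7) + (-9) * a9 (q - 8) := by
  have h := s9_7 (2 * q)
  rw [show (2 * (2 * q) + 1 - 7 : ℤ) = 2 * (2 * q + 1) - 1 - 7 by ring] at h
  rw [h]
  simp only [e9_0 q, e9_1 q, e9_2 q, e9_3 q, e9_4 q, e9_5 q, e9_6 q, e9_7 q]
  ring

theorem b9_2_0 (q : ℤ) : a9 (4 * (2 * q + 1) - 1 - 0) = (-3) * a9 (q - 0) + 10269 * a9 (q - 1) + 51057 * a9 (q - 2) + (-232703) * a9 (q - 3) + (-436041) * a9 (q - 4) + (-73737) * a9 (q - 5) + 9243 * a9 (q - 6) + 171 * a9 (q - 7) := by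
  have h := s9_0 (2 * (2 * q + 1) - 1)
  rw [show (2 * (2 * (2 * q + 1) - 1) + 1 - 0 : ℤ) = 4 * (2 * q + 1) - 1 - 0 by ring] at h
  rw [h]
  simp only [b9_1_0 q, b9_1_1 q, b9_1_2 q, b9_1_3 q, b9_1_4 q, b9_1_5 q, b9_1_6 q, b9_1_7 q]
  ring

theorem b9_2_1 (q : ℤ) : a9 (4 * (2 * q + 1) - 1 - 1) = 27 * a9 (q - 0) + (-3717) * a9 (q - 1) + (-97273) * a9 (q - 2) + (-109449) * a9 (q - 3) + 297873 * a9 (q - 4) + 184785 * a9 (q - 5) + 6669 * a9 (q - 6) + (-387) * a9 (q - 7) := by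
  have h := s9_1 (2 * (2 * q + 1) - 1)
  rw [show (2 * (2 * (2 * q + 1) - 1) + 1 - 1 : ℤ) = 4 * (2 * q + 1) - 1 - 1 by ring] at h
  rw [h]
  simp only [b9_1_0 q, b9_1_1 q, b9_1_2 q, b9_1_3 q, b9_1_4 q, b9_1_5 q, b9_1_6 q, b9_1_7 q]
  ring

theorem b9_2_2 (q : ℤ) : a9 (4 * (2 * q + 1) - 1 - 2) = (-9) * a9 (q - 0) + (-1369) * a9 (q - 1) + 58995 * a9 (q - 2) + 315315 * a9 (q - 3) + 98277 * a9 (q - 4) + (-163179) * a9 (q - 5) + (-29583) * a9 (q - 6) + 81 * a9 (q - 7) := by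
  have h := s9_2 (2 * (2 * q + 1) - 1)
  rw [show (2 * (2 * (2 * q + 1) - 1) + 1 - 2 : ℤ) = 4 * (2 * q + 1) - 1 - 2 by ring] at h
  rw [h]
  simp only [b9_1_0 q, b9_1_1 q, b9_1_2 q, b9_1_3 q, b9_1_4 q, b9_1_5 q, b9_1_6 q, b9_1_7 q]
  ring

theorem b9_2_3 (q : ℤ) : a9 (4 * (2 * q + 1) - 1 - 3) = 1 * a9 (q - 0) + 2385 * a9 (q - 1) + 3429 * a9 (q - 2) + (-256347) * a9 (q - 3) + (-431613) * a9 (q - 4) + (-26541) * a9 (q - 5) + 35799 * a9 (q - 6) + 1143 * a9 (q - 7) := by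
  have h := s9_3 (2 * (2 * q + 1) - 1)
  rw [show (2 * (2 * (2 * q + 1) - 1) + 1 - 3 : ℤ) = 4 * (2 * q + 1) - 1 - 3 by ring] at h
  rw [h]
  simp only [b9_1_0 q, b9_1_1 q, b9_1_2 q, b9_1_3 q, b9_1_4 q, b9_1_5 q, b9_1_6 q, b9_1_7 q]
  ring

theorem b9_2_4 (q : ℤ) : a9 (4 * (2 * q + 1) - 1 - 4) = (-1143) * a9 (q - 1) + (-35799) * a9 (q - 2) + 26541 * a9 (q - 3) + 431613 * a9 (q - 4) + 256347 * a9 (q - 5) + (-3429) * a9 (q - 6) + (-2385) * a9 (q - 7) + (-1) * a9 (q - 8) := by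
  have h := s9_4 (2 * (2 * q + 1) - 1)
  rw [show (2 * (2 * (2 * q + 1) - 1) + 1 - 4 : ℤ) = 4 * (2 * q + 1) - 1 - 4 by ring] at h
  rw [h]
  simp only [b9_1_0 q, b9_1_1 q, b9_1_2 q, b9_1_3 q, b9_1_4 q, b9_1_5 q, b9_1_6 q, b9_1_7 q]
  ring

theorem b9_2_5 (q : ℤ) : a9 (4 * (2 * q + 1) - 1 - 5) = (-81) * a9 (q - 1) + 29583 * a9 (q - 2) + 163179 * a9 (q - 3) + (-98277) * a9 (q - 4) + (-315315) * a9 (q - 5) + (-58995) * a9 (q - 6) + 1369 * a9 (q - 7) + 9 * a9 (q - 8) := by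
  have h := s9_5 (2 * (2 * q + 1) - 1)
  rw [show (2 * (2 * (2 * q + 1) - 1) + 1 - 5 : ℤ) = 4 * (2 * q + 1) - 1 - 5 by ring] at h
  rw [h]
  simp only [b9_1_0 q, b9_1_1 q, b9_1_2 q, b9_1_3 q, b9_1_4 q, b9_1_5 q, b9_1_6 q, b9_1_7 q]
  ring

theorem b9_2_6 (q : ℤ) : a9 (4 * (2 * q + 1) - 1 - 6) = 387 * a9 (q - 1) + (-6669) * a9 (q - 2) + (-184785) * a9 (q - 3) + (-297873) * a9 (q - 4) + 109449 * a9 (q - 5) + 97273 * a9 (q - 6) + 3717 * a9 (q - 7) + (-27) * a9 (q - 8) := by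
  have h := s9_6 (2 * (2 * q + 1) - 1)
  rw [show (2 * (2 * (2 * q + 1) - 1) + 1 - 6 : ℤ) = 4 * (2 * q + 1) - 1 - 6 by ring] at h
  rw [h]
  simp only [b9_1_0 q, b9_1_1 q, b9_1_2 q, b9_1_3 q, b9_1_4 q, b9_1_5 q, b9_1_6 q, b9_1_7 q]
  ring

theorem b9_2_7 (q : ℤ) : a9 (4 * (2 * q + 1) - 1 - 7) = (-171) * a9 (q - 1) + (-9243) * a9 (q - 2) + 73737 * a9 (q - 3) + 436041 * a9 (q - 4) + 232703 * a9 (q - 5) + (-51057) * a9 (q - 6) + (-10269) * a9 (q - 7) + 3 * a9 (q - 8) := by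
  have h := s9_7 (2 * (2 * q + 1) - 1)
  rw [show (2 * (2 * (2 * q + 1) - 1) + 1 - 7 : ℤ) = 4 * (2 * q + 1) - 1 - 7 by ring] at h
  rw [h]
  simp only [b9_1_0 q, b9_1_1 q, b9_1_2 q, b9_1_3 q, b9_1_4 q, b9_1_5 q, b9_1_6 q, b9_1_7 q]
  ring

theorem b9_3_0 (q : ℤ) : a9 (8 * (2 * q + 1) - 1 - 0) = (-1143) * a9 (q - 0) + 307584 * a9 (q - 1) + 190404 * a9 (q - 2) + (-19239696) * a9 (q - 3) + (-18373410) * a9 (q - 4) + 6401376 * a9 (q - 5) + 1798740 * a9 (q - 6) + (-18000) * a9 (q - 7) + 1 * a9 (q - 8) := by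
  have h := s9_0 (4 * (2 * q + 1) - 1)
  rw [show (2 * (4 * (2 * q + 1) - 1) + 1 - 0 : ℤ) = 8 * (2 * q + 1) - 1 - 0 by ring] at h
  rw [h]
  simp only [b9_2_0 q, b9_2_1 q, b9_2_2 q, b9_2_3 q, b9_2_4 q, b9_2_5 q, b9_2_6 q, b9_2_7 q]
  ring

theorem b9_3_1 (q : ℤ) : a9 (8 * (2 * q + 1) - 1 - 1) = (-81) * a9 (q - 0) + (-105984) * a9 (q - 1) + 3948444 * a9 (q - 2) + 14262544 * a9 (q - 3) + (-9700686) * a9 (q - 4) + (-13904352) * a9 (q - 5) + (-501876) * a9 (q - 6) + 70992 * a9 (q - 7) + (-9) * a9 (q - 8) := by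
  have h := s9_1 (4 * (2 * q + 1) - 1)
  rw [show (2 * (4 * (2 * q + 1) - 1) + 1 - 1 : ℤ) = 8 * (2 * q + 1) - 1 - 1 by ring] at h
  rw [h]
  simp only [b9_2_0 q, b9_2_1 q, b9_2_2 q, b9_2_3 q, b9_2_4 q, b9_2_5 q, b9_2_6 q, b9_2_7 q]
  ring

theorem b9_3_2 (q : ℤ) : a9 (8 * (2 * q + 1) - 1 - 2) = 387 * a9 (q - 0) + (-110832) * a9 (q - 1) + (-3252996) * a9 (q - 2) + 5679648 * a9 (q - 3) + 28007322 * a9 (q - 4) + 6474960 * a9 (q - 5) + (-1903284) * a9 (q - 6) + (-62848) * a9 (q - 7) + 27 * a9 (q - 8) := by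
  have h := s9_2 (4 * (2 * q + 1) - 1)
  rw [show (2 * (4 * (2 * q + 1) - 1) + 1 - 2 : ℤ) = 8 * (2 * q + 1) - 1 - 2 by ring] at h
  rw [h]
  simp only [b9_2_0 q, b9_2_1 q, b9_2_2 q, b9_2_3 q, b9_2_4 q, b9_2_5 q, b9_2_6 q, b9_2_7 q]
  ring

theorem b9_3_3 (q : ℤ) : a9 (8 * (2 * q + 1) - 1 - 3) = (-171) * a9 (q - 0) + 150768 * a9 (q - 1) + (-282268) * a9 (q - 2) + (-17359776) * a9 (q - 3) + (-15176394) * a9 (q - 4) + 9661488 * a9 (q - 5) + 2633364 * a9 (q - 6) + (-41472) * a9 (q - 7) + (-3) * a9 (q - 8) := by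
  have h := s9_3 (4 * (2 * q + 1) - 1)
  rw [show (2 * (4 * (2 * q + 1) - 1) + 1 - 3 : ℤ) = 8 * (2 * q + 1) - 1 - 3 by ring] at h
  rw [h]
  simp only [b9_2_0 q, b9_2_1 q, b9_2_2 q, b9_2_3 q, b9_2_4 q, b9_2_5 q, b9_2_6 q, b9_2_7 q]
  ring

theorem b9_3_4 (q : ℤ) : a9 (8 * (2 * q + 1) - 1 - 4) = (-3) * a9 (q - 0) + (-41472) * a9 (q - 1) + 2633364 * a9 (q - 2) + 9661488 * a9 (q - 3) + (-15176394) * a9 (q - 4) + (-17359776) * a9 (q - 5) + (-282268) * a9 (q - 6) + 150768 * a9 (q - 7) + (-171) * a9 (q - 8) := by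
  have h := s9_4 (4 * (2 * q + 1) - 1)
  rw [show (2 * (4 * (2 * q + 1) - 1) + 1 - 4 : ℤ) = 8 * (2 * q + 1) - 1 - 4 by ring] at h
  rw [h]
  simp only [b9_2_0 q, b9_2_1 q, b9_2_2 q, b9_2_3 q, b9_2_4 q, b9_2_5 q, b9_2_6 q, b9_2_7 q]
  ring

theorem b9_3_5 (q : ℤ) : a9 (8 * (2 * q + 1) - 1 - 5) = 27 * a9 (q - 0) + (-62848) * a9 (q - 1) + (-1903284) * a9 (q - 2) + 6474960 * a9 (q - 3) + 28007322 * a9 (q - 4) + 5679648 * a9 (q - 5) + (-3252996) * a9 (q - 6) + (-110832) * a9 (q - 7) + 387 * a9 (q - 8) := by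
  have h := s9_5 (4 * (2 * q + 1) - 1)
  rw [show (2 * (4 * (2 * q + 1) - 1) + 1 - 5 : ℤ) = 8 * (2 * q + 1) - 1 - 5 by ring] at h
  rw [h]
  simp only [b9_2_0 q, b9_2_1 q, b9_2_2 q, b9_2_3 q, b9_2_4 q, b9_2_5 q, b9_2_6 q, b9_2_7 q]
  ring

theorem b9_3_6 (q : ℤ) : a9 (8 * (2 * q + 1) - 1 - 6) = (-9) * a9 (q - 0) + 70992 * a9 (q - 1) + (-501876) * a9 (q - 2) + (-13904352) * a9 (q - 3) + (-9700686) * a9 (q - 4) + 14262544 * a9 (q - 5) + 3948444 * a9 (q - 6) + (-105984) * a9 (q - 7) + (-81) * a9 (q - 8) := by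
  have h := s9_6 (4 * (2 * q + 1) - 1)
  rw [show (2 * (4 * (2 * q + 1) - 1) + 1 - 6 : ℤ) = 8 * (2 * q + 1) - 1 - 6 by ring] at h
  rw [h]
  simp only [b9_2_0 q, b9_2_1 q, b9_2_2 q, b9_2_3 q, b9_2_4 q, b9_2_5 q, b9_2_6 q, b9_2_7 q]
  ring

theorem b9_3_7 (q : ℤ) : a9 (8 * (2 * q + 1) - 1 - 7) = 1 * a9 (q - 0) + (-18000) * a9 (q - 1) + 1798740 * a9 (q - 2) + 6401376 * a9 (q - 3) + (-18373410) * a9 (q - 4) + (-19239696) * a9 (q - 5) + 190404 * a9 (q - 6) + 307584 * a9 (q - 7) + (-1143) * a9 (q - 8) := by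
  have h := s9_7 (4 * (2 * q + 1) - 1)
  rw [show (2 * (4 * (2 * q + 1) - 1) + 1 - 7 : ℤ) = 8 * (2 * q + 1) - 1 - 7 by ring] at h
  rw [h]
  simp only [b9_2_0 q, b9_2_1 q, b9_2_2 q, b9_2_3 q, b9_2_4 q, b9_2_5 q, b9_2_6 q, b9_2_7 q]
  ring

theorem b9_4_0 (q : ℤ) : a9 (16 * (2 * q + 1) - 1 - 0) = (-25512) * a9 (q - 0) + 14713056 * a9 (q - 1) + 84022848 * a9 (q - 2) + (-1125241632) * a9 (q - 3) + (-1987177680) * a9 (q - 4) + (-35945568) * a9 (q - 5) + 171263872 * a9 (q - 6) + 3459744 * a9 (q - 7) + (-2376) * a9 (q - 8) := by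
  have h := s9_0 (8 * (2 * q + 1) - 1)
  rw [show (2 * (8 * (2 * q + 1) - 1) + 1 - 0 : ℤ) = 16 * (2 * q + 1) - 1 - 0 by ring] at h
  rw [h]
  simp only [b9_3_0 q, b9_3_1 q, b9_3_2 q, b9_3_3 q, b9_3_4 q, b9_3_5 q, b9_3_6 q, b9_3_7 q]
  ring

theorem b9_4_1 (q : ℤ) : a9 (16 * (2 * q + 1) - 1 - 1) = 30312 * a9 (q - 0) + (-5181408) * a9 (q - 1) + (-267553344) * a9 (q - 2) + (-161420256) * a9 (q - 3) + 1749919824 * a9 (q - 4) + 977016672 * a9 (q - 5) + (-37420416) * a9 (q - 6) + (-7507872) * a9 (q - 7) + 1288 * a9 (q - 8) := by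
  have h := s9_1 (8 * (2 * q + 1) - 1)
  rw [show (2 * (8 * (2 * q + 1) - 1) + 1 - 1 : ℤ) = 16 * (2 * q + 1) - 1 - 1 by ring] at h
  rw [h]
  simp only [b9_3_0 q, b9_3_1 q, b9_3_2 q, b9_3_3 q, b9_3_4 q, b9_3_5 q, b9_3_6 q, b9_3_7 q]
  ring

theorem b9_4_2 (q : ℤ) : a9 (16 * (2 * q + 1) - 1 - 2) = (-10152) * a9 (q - 0) + (-7177184) * a9 (q - 1) + 180383616 * a9 (q - 2) + 1227589920 * a9 (q - 3) + 165259632 * a9 (q - 4) + (-1016832672) * a9 (q - 5) + (-153996480) * a9 (q - 6) + 4548960 * a9 (q - 7) + 3960 * a9 (q - 8) := by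
  have h := s9_2 (8 * (2 * q + 1) - 1)
  rw [show (2 * (8 * (2 * q + 1) - 1) + 1 - 2 : ℤ) = 16 * (2 * q + 1) - 1 - 2 by ring] at h
  rw [h]
  simp only [b9_3_0 q, b9_3_1 q, b9_3_2 q, b9_3_3 q, b9_3_4 q, b9_3_5 q, b9_3_6 q, b9_3_7 q]
  ring

theorem b9_4_3 (q : ℤ) : a9 (16 * (2 * q + 1) - 1 - 3) = (-7704) * a9 (q - 0) + 10851552 * a9 (q - 1) + 55347840 * a9 (q - 2) + (-1098762272) * a9 (q - 3) + (-1936413936) * a9 (q - 4) + 29437344 * a9 (q - 5) + 209796288 * a9 (q - 6) + 4250016 * a9 (q - 7) + (-10296) * a9 (q - 8) := by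
  have h := s9_3 (8 * (2 * q + 1) - 1)
  rw [show (2 * (8 * (2 * q + 1) - 1) + 1 - 3 : ℤ) = 16 * (2 * q + 1) - 1 - 3 by ring] at h
  rw [h]
  simp only [b9_3_0 q, b9_3_1 q, b9_3_2 q, b9_3_3 q, b9_3_4 q, b9_3_5 q, b9_3_6 q, b9_3_7 q]
  ring

theorem b9_4_4 (q : ℤ) : a9 (16 * (2 * q + 1) - 1 - 4) = 10296 * a9 (q - 0) + (-4250016) * a9 (q - 1) + (-209796288) * a9 (q - 2) + (-29437344) * a9 (q - 3) + 1936413936 * a9 (q - 4) + 1098762272 * a9 (q - 5) + (-55347840) * a9 (q - 6) + (-10851552) * a9 (q - 7) + 7704 * a9 (q - 8) := by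
  have h := s9_4 (8 * (2 * q + 1) - 1)
  rw [show (2 * (8 * (2 * q + 1) - 1) + 1 - 4 : ℤ) = 16 * (2 * q + 1) - 1 - 4 by ring] at h
  rw [h]
  simp only [b9_3_0 q, b9_3_1 q, b9_3_2 q, b9_3_3 q, b9_3_4 q, b9_3_5 q, b9_3_6 q, b9_3_7 q]
  ring

theorem b9_4_5 (q : ℤ) : a9 (16 * (2 * q + 1) - 1 - 5) = (-3960) * a9 (q - 0) + (-4548960) * a9 (q - 1) + 153996480 * a9 (q - 2) + 1016832672 * a9 (q - 3) + (-165259632) * a9 (q - 4) + (-1227589920) * a9 (q - 5) + (-180383616) * a9 (q - 6) + 7177184 * a9 (q - 7) + 10152 * a9 (q - 8) := by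
  have h := s9_5 (8 * (2 * q + 1) - 1)
  rw [show (2 * (8 * (2 * q + 1) - 1) + 1 - 5 : ℤ) = 16 * (2 * q + 1) - 1 - 5 by ring] at h
  rw [h]
  simp only [b9_3_0 q, b9_3_1 q, b9_3_2 q, b9_3_3 q, b9_3_4 q, b9_3_5 q, b9_3_6 q, b9_3_7 q]
  ring

theorem b9_4_6 (q : ℤ) : a9 (16 * (2 * q + 1) - 1 - 6) = (-1288) * a9 (q - 0) + 7507872 * a9 (q - 1) + 37420416 * a9 (q - 2) + (-977016672) * a9 (q - 3) + (-1749919824) * a9 (q - 4) + 161420256 * a9 (q - 5) + 267553344 * a9 (q - 6) + 5181408 * a9 (q - 7) + (-30312) * a9 (q - 8) := by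
  have h := s9_6 (8 * (2 * q + 1) - 1)
  rw [show (2 * (8 * (2 * q + 1) - 1) + 1 - 6 : ℤ) = 16 * (2 * q + 1) - 1 - 6 by ring] at h
  rw [h]
  simp only [b9_3_0 q, b9_3_1 q, b9_3_2 q, b9_3_3 q, b9_3_4 q, b9_3_5 q, b9_3_6 q, b9_3_7 q]
  ring

theorem b9_4_7 (q : ℤ) : a9 (16 * (2 * q + 1) - 1 - 7) = 2376 * a9 (q - 0) + (-3459744) * a9 (q - 1) + (-171263872) * a9 (q - 2) + 35945568 * a9 (q - 3) + 1987177680 * a9 (q - 4) + 1125241632 * a9 (q - 5) + (-84022848) * a9 (q - 6) + (-14713056) * a9 (q - 7) + 25512 * a9 (q - 8) := by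
  have h := s9_7 (8 * (2 * q + 1) - 1)
  rw [show (2 * (8 * (2 * q + 1) - 1) + 1 - 7 : ℤ) = 16 * (2 * q + 1) - 1 - 7 by ring] at h
  rw [h]
  simp only [b9_3_0 q, b9_3_1 q, b9_3_2 q, b9_3_3 q, b9_3_4 q, b9_3_5 q, b9_3_6 q, b9_3_7 q]
  ring

theorem b9_5_0 (q : ℤ) : a9 (32 * (2 * q + 1) - 1 - 0) = (-770400) * a9 (q - 0) + 820740096 * a9 (q - 1) + (-2792786304) * a9 (q - 2) + (-91404974592) * a9 (q - 3) + (-82156891968) * a9 (q - 4) + 44216519680 * a9 (q - 5) + 13508178048 * a9 (q - 6) + (-115794432) * a9 (q - 7) + (-222816) * a9 (q - 8) := by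
  have h := s9_0 (16 * (2 * q + 1) - 1)
  rw [show (2 * (16 * (2 * q + 1) - 1) + 1 - 0 : ℤ) = 32 * (2 * q + 1) - 1 - 0 by ring] at h
  rw [h]
  simp only [b9_4_0 q, b9_4_1 q, b9_4_2 q, b9_4_3 q, b9_4_4 q, b9_4_5 q, b9_4_6 q, b9_4_7 q]
  ring

theorem b9_5_1 (q : ℤ) : a9 (32 * (2 * q + 1) - 1 - 1) = (-767904) * a9 (q - 0) + (-202862592) * a9 (q - 1) + 15941490048 * a9 (q - 2) + 55178992128 * a9 (q - 3) + (-63398395584) * a9 (q - 4) + (-80622664704) * a9 (q - 5) + (-3454669952) * a9 (q - 6) + 565682688 * a9 (q - 7) + (-252576) * a9 (q - 8) := by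
  have h := s9_1 (16 * (2 * q + 1) - 1)
  rw [show (2 * (16 * (2 * q + 1) - 1) + 1 - 1 : ℤ) = 32 * (2 * q + 1) - 1 - 1 by ring] at h
  rw [h]
  simp only [b9_4_0 q, b9_4_1 q, b9_4_2 q, b9_4_3 q, b9_4_4 q, b9_4_5 q, b9_4_6 q, b9_4_7 q]
  ring

theorem b9_5_2 (q : ℤ) : a9 (32 * (2 * q + 1) - 1 - 2) = 1183968 * a9 (q - 0) + (-560229888) * a9 (q - 1) + (-12319401600) * a9 (q - 2) + 36822187008 * a9 (q - 3) + 144811426368 * a9 (q - 4) + 34583837184 * a9 (q - 5) + (-10988938368) * a9 (q - 6) + (-466565120) * a9 (q - 7) + 665568 * a9 (q - 8) := by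
  have h := s9_2 (16 * (2 * q + 1) - 1)
  rw [show (2 * (16 * (2 * q + 1) - 1) + 1 - 2 : ℤ) = 32 * (2 * q + 1) - 1 - 2 by ring] at h
  rw [h]
  simp only [b9_4_0 q, b9_4_1 q, b9_4_2 q, b9_4_3 q, b9_4_4 q, b9_4_5 q, b9_4_6 q, b9_4_7 q]
  ring

theorem b9_5_3 (q : ℤ) : a9 (32 * (2 * q + 1) - 1 - 3) = (-476640) * a9 (q - 0) + 705793536 * a9 (q - 1) + (-3036835200) * a9 (q - 2) + (-87733472256) * a9 (q - 3) + (-75117455424) * a9 (q - 4) + 49327867392 * a9 (q - 5) + 14580367488 * a9 (q - 6) + (-155179008) * a9 (q - 7) + (-414944) * a9 (q - 8) := by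
  have h := s9_3 (16 * (2 * q + 1) - 1)
  rw [show (2 * (16 * (2 * q + 1) - 1) + 1 - 3 : ℤ) = 32 * (2 * q + 1) - 1 - 3 by ring] at h
  rw [h]
  simp only [b9_4_0 q, b9_4_1 q, b9_4_2 q, b9_4_3 q, b9_4_4 q, b9_4_5 q, b9_4_6 q, b9_4_7 q]
  ring

theorem b9_5_4 (q : ℤ) : a9 (32 * (2 * q + 1) - 1 - 4) = (-414944) * a9 (q - 0) + (-155179008) * a9 (q - 1) + 14580367488 * a9 (q - 2) + 49327867392 * a9 (q - 3) + (-75117455424) * a9 (q - 4) + (-87733472256) * a9 (q - 5) + (-3036835200) * a9 (q - 6) + 705793536 * a9 (q - 7) + (-476640) * a9 (q - 8) := by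
  have h := s9_4 (16 * (2 * q + 1) - 1)
  rw [show (2 * (16 * (2 * q + 1) - 1) + 1 - 4 : ℤ) = 32 * (2 * q + 1) - 1 - 4 by ring] at h
  rw [h]
  simp only [b9_4_0 q, b9_4_1 q, b9_4_2 q, b9_4_3 q, b9_4_4 q, b9_4_5 q, b9_4_6 q, b9_4_7 q]
  ring

theorem b9_5_5 (q : ℤ) : a9 (32 * (2 * q + 1) - 1 - 5) = 665568 * a9 (q - 0) + (-466565120) * a9 (q - 1) + (-10988938368) * a9 (q - 2) + 34583837184 * a9 (q - 3) + 144811426368 * a9 (q - 4) + 36822187008 * a9 (q - 5) + (-12319401600) * a9 (q - 6) + (-560229888) * a9 (q - 7) + 1183968 * a9 (q - 8) := by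
  have h := s9_5 (16 * (2 * q + 1) - 1)
  rw [show (2 * (16 * (2 * q + 1) - 1) + 1 - 5 : ℤ) = 32 * (2 * q + 1) - 1 - 5 by ring] at h
  rw [h]
  simp only [b9_4_0 q, b9_4_1 q, b9_4_2 q, b9_4_3 q, b9_4_4 q, b9_4_5 q, b9_4_6 q, b9_4_7 q]
  ring

theorem b9_5_6 (q : ℤ) : a9 (32 * (2 * q + 1) - 1 - 6) = (-252576) * a9 (q - 0) + 565682688 * a9 (q - 1) + (-3454669952) * a9 (q - 2) + (-80622664704) * a9 (q - 3) + (-63398395584) * a9 (q - 4) + 55178992128 * a9 (q - 5) + 15941490048 * a9 (q - 6) + (-202862592) * a9 (q - 7) + (-767904) * a9 (q - 8) := by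
  have h := s9_6 (16 * (2 * q + 1) - 1)
  rw [show (2 * (16 * (2 * q + 1) - 1) + 1 - 6 : ℤ) = 32 * (2 * q + 1) - 1 - 6 by ring] at h
  rw [h]
  simp only [b9_4_0 q, b9_4_1 q, b9_4_2 q, b9_4_3 q, b9_4_4 q, b9_4_5 q, b9_4_6 q, b9_4_7 q]
  ring

theorem b9_5_7 (q : ℤ) : a9 (32 * (2 * q + 1) - 1 - 7) = (-222816) * a9 (q - 0) + (-115794432) * a9 (q - 1) + 13508178048 * a9 (q - 2) + 44216519680 * a9 (q - 3) + (-82156891968) * a9 (q - 4) + (-91404974592) * a9 (q - 5) + (-2792786304) * a9 (q - 6) + 820740096 * a9 (q - 7) + (-770400) * a9 (q - 8) := by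
  have h := s9_7 (16 * (2 * q + 1) - 1)
  rw [show (2 * (16 * (2 * q + 1) - 1) + 1 - 7 : ℤ) = 32 * (2 * q + 1) - 1 - 7 by ring] at h
  rw [h]
  simp only [b9_4_0 q, b9_4_1 q, b9_4_2 q, b9_4_3 q, b9_4_4 q, b9_4_5 q, b9_4_6 q, b9_4_7 q]
  ring

theorem b9_6_0 (q : ℤ) : a9 (64 * (2 * q + 1) - 1 - 0) = (-60168448) * a9 (q - 0) + 54989374464 * a9 (q - 1) + 333040214016 * a9 (q - 2) + (-5342908996608) * a9 (q - 3) + (-9402016614912) * a9 (q - 4) + 328721918976 * a9 (q - 5) + 1031368513536 * a9 (q - 6) + 17192659968 * a9 (q - 7) + (-45225216) * a9 (q - 8) := by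
  have h := s9_0 (32 * (2 * q + 1) - 1)
  rw [show (2 * (32 * (2 * q + 1) - 1) + 1 - 0 : ℤ) = 64 * (2 * q + 1) - 1 - 0 by ring] at h
  rw [h]
  simp only [b9_5_0 q, b9_5_1 q, b9_5_2 q, b9_5_3 q, b9_5_4 q, b9_5_5 q, b9_5_6 q, b9_5_7 q]
  ring

theorem b9_6_1 (q : ℤ) : a9 (64 * (2 * q + 1) - 1 - 1) = 76992768 * a9 (q - 0) + (-19181233152) * a9 (q - 1) + (-1105014595584) * a9 (q - 2) + (-391026557952) * a9 (q - 3) + 8895817234944 * a9 (q - 4) + 4853303686144 * a9 (q - 5) + (-298046822400) * a9 (q - 6) + (-45221317632) * a9 (q - 7) + 35400960 * a9 (q - 8) := by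
  have h := s9_1 (32 * (2 * q + 1) - 1)
  rw [show (2 * (32 * (2 * q + 1) - 1) + 1 - 1 : ℤ) = 64 * (2 * q + 1) - 1 - 1 by ring] at h
  rw [h]
  simp only [b9_5_0 q, b9_5_1 q, b9_5_2 q, b9_5_3 q, b9_5_4 q, b9_5_5 q, b9_5_6 q, b9_5_7 q]
  ring

theorem b9_6_2 (q : ℤ) : a9 (64 * (2 * q + 1) - 1 - 2) = (-18213120) * a9 (q - 0) + (-33991902208) * a9 (q - 1) + 760093267968 * a9 (q - 2) + 5654355803136 * a9 (q - 3) + 430642097664 * a9 (q - 4) + (-5273166818304) * a9 (q - 5) + (-761317982208) * a9 (q - 6) + 28804543488 * a9 (q - 7) + 14623488 * a9 (q - 8) := by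
  have h := s9_2 (32 * (2 * q + 1) - 1)
  rw [show (2 * (32 * (2 * q + 1) - 1) + 1 - 2 : ℤ) = 64 * (2 * q + 1) - 1 - 2 by ring] at h
  rw [h]
  simp only [b9_5_0 q, b9_5_1 q, b9_5_2 q, b9_5_3 q, b9_5_4 q, b9_5_5 q, b9_5_6 q, b9_5_7 q]
  ring

theorem b9_6_3 (q : ℤ) : a9 (64 * (2 * q + 1) - 1 - 3) = (-47066880) * a9 (q - 0) + 51324724224 * a9 (q - 1) + 315652220928 * a9 (q - 2) + (-5218844384256) * a9 (q - 3) + (-9321549848064) * a9 (q - 4) + 341494778880 * a9 (q - 5) + 1072101081088 * a9 (q - 6) + 18461371392 * a9 (q - 7) + (-57957120) * a9 (q - 8) := by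
  have h := s9_3 (32 * (2 * q + 1) - 1)
  rw [show (2 * (32 * (2 * q + 1) - 1) + 1 - 3 : ℤ) = 64 * (2 * q + 1) - 1 - 3 by ring] at h
  rw [h]
  simp only [b9_5_0 q, b9_5_1 q, b9_5_2 q, b9_5_3 q, b9_5_4 q, b9_5_5 q, b9_5_6 q, b9_5_7 q]
  ring

theorem b9_6_4 (q : ℤ) : a9 (64 * (2 * q + 1) - 1 - 4) = 57957120 * a9 (q - 0) + (-18461371392) * a9 (q - 1) + (-1072101081088) * a9 (q - 2) + (-341494778880) * a9 (q - 3) + 9321549848064 * a9 (q - 4) + 5218844384256 * a9 (q - 5) + (-315652220928) * a9 (q - 6) + (-51324724224) * a9 (q - 7) + 47066880 * a9 (q - 8) := by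
  have h := s9_4 (32 * (2 * q + 1) - 1)
  rw [show (2 * (32 * (2 * q + 1) - 1) + 1 - 4 : ℤ) = 64 * (2 * q + 1) - 1 - 4 by ring] at h
  rw [h]
  simp only [b9_5_0 q, b9_5_1 q, b9_5_2 q, b9_5_3 q, b9_5_4 q, b9_5_5 q, b9_5_6 q, b9_5_7 q]
  ring

theorem b9_6_5 (q : ℤ) : a9 (64 * (2 * q + 1) - 1 - 5) = (-14623488) * a9 (q - 0) + (-28804543488) * a9 (q - 1) + 761317982208 * a9 (q - 2) + 5273166818304 * a9 (q - 3) + (-430642097664) * a9 (q - 4) + (-5654355803136) * a9 (q - 5) + (-760093267968) * a9 (q - 6) + 33991902208 * a9 (q - 7) + 18213120 * a9 (q - 8) := by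
  have h := s9_5 (32 * (2 * q + 1) - 1)
  rw [show (2 * (32 * (2 * q + 1) - 1) + 1 - 5 : ℤ) = 64 * (2 * q + 1) - 1 - 5 by ring] at h
  rw [h]
  simp only [b9_5_0 q, b9_5_1 q, b9_5_2 q, b9_5_3 q, b9_5_4 q, b9_5_5 q, b9_5_6 q, b9_5_7 q]
  ring

theorem b9_6_6 (q : ℤ) : a9 (64 * (2 * q + 1) - 1 - 6) = (-35400960) * a9 (q - 0) + 45221317632 * a9 (q - 1) + 298046822400 * a9 (q - 2) + (-4853303686144) * a9 (q - 3) + (-8895817234944) * a9 (q - 4) + 391026557952 * a9 (q - 5) + 1105014595584 * a9 (q - 6) + 19181233152 * a9 (q - 7) + (-76992768) * a9 (q - 8) := by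
  have h := s9_6 (32 * (2 * q + 1) - 1)
  rw [show (2 * (32 * (2 * q + 1) - 1) + 1 - 6 : ℤ) = 64 * (2 * q + 1) - 1 - 6 by ring] at h
  rw [h]
  simp only [b9_5_0 q, b9_5_1 q, b9_5_2 q, b9_5_3 q, b9_5_4 q, b9_5_5 q, b9_5_6 q, b9_5_7 q]
  ring

theorem b9_6_7 (q : ℤ) : a9 (64 * (2 * q + 1) - 1 - 7) = 45225216 * a9 (q - 0) + (-17192659968) * a9 (q - 1) + (-1031368513536) * a9 (q - 2) + (-328721918976) * a9 (q - 3) + 9402016614912 * a9 (q - 4) + 5342908996608 * a9 (q - 5) + (-333040214016) * a9 (q - 6) + (-54989374464) * a9 (q - 7) + 60168448 * a9 (q - 8) := by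
  have h := s9_7 (32 * (2 * q + 1) - 1)
  rw [show (2 * (32 * (2 * q + 1) - 1) + 1 - 7 : ℤ) = 64 * (2 * q + 1) - 1 - 7 by ring] at h
  rw [h]
  simp only [b9_5_0 q, b9_5_1 q, b9_5_2 q, b9_5_3 q, b9_5_4 q, b9_5_5 q, b9_5_6 q, b9_5_7 q]
  ring

theorem b9_7_0 (q : ℤ) : a9 (128 * (2 * q + 1) - 1 - 0) = (-1994572800) * a9 (q - 0) + 3570070192128 * a9 (q - 1) + (-16239266533376) * a9 (q - 2) + (-443296526745600) * a9 (q - 3) + (-390637157824512) * a9 (q - 4) + 236270355775488 * a9 (q - 5) + 73399695519744 * a9 (q - 6) + (-598800384000) * a9 (q - 7) + (-2369823744) * a9 (q - 8) := by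
  have h := s9_0 (64 * (2 * q + 1) - 1)
  rw [show (2 * (64 * (2 * q + 1) - 1) + 1 - 0 : ℤ) = 128 * (2 * q + 1) - 1 - 0 by ring] at h
  rw [h]
  simp only [b9_6_0 q, b9_6_1 q, b9_6_2 q, b9_6_3 q, b9_6_4 q, b9_6_5 q, b9_6_6 q, b9_6_7 q]
  ring

theorem b9_7_1 (q : ℤ) : a9 (128 * (2 * q + 1) - 1 - 1) = (-3015285760) * a9 (q - 0) + (-773390204928) * a9 (q - 1) + 73190143365120 * a9 (q - 2) + 251572584824832 * a9 (q - 3) + (-334007930456064) * a9 (q - 4) + (-413716203601920) * a9 (q - 5) + (-18408762028032) * a9 (q - 6) + 3107430383616 * a9 (q - 7) + (-1373027328) * a9 (q - 8) := by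
  have h := s9_1 (64 * (2 * q + 1) - 1)
  rw [show (2 * (64 * (2 * q + 1) - 1) + 1 - 1 : ℤ) = 128 * (2 * q + 1) - 1 - 1 by ring] at h
  rw [h]
  simp only [b9_6_0 q, b9_6_1 q, b9_6_2 q, b9_6_3 q, b9_6_4 q, b9_6_5 q, b9_6_6 q, b9_6_7 q]
  ring

theorem b9_7_2 (q : ℤ) : a9 (128 * (2 * q + 1) - 1 - 2) = 4695561216 * a9 (q - 0) + (-2745550454784) * a9 (q - 1) + (-55840562049024) * a9 (q - 2) + 193148389195776 * a9 (q - 3) + 723133837105152 * a9 (q - 4) + 174013895393280 * a9 (q - 5) + (-56328031088640) * a9 (q - 6) + (-2525024419840) * a9 (q - 7) + 4042994688 * a9 (q - 8) := by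
  have h := s9_2 (64 * (2 * q + 1) - 1)
  rw [show (2 * (64 * (2 * q + 1) - 1) + 1 - 2 : ℤ) = 128 * (2 * q + 1) - 1 - 2 by ring] at h
  rw [h]
  simp only [b9_6_0 q, b9_6_1 q, b9_6_2 q, b9_6_3 q, b9_6_4 q, b9_6_5 q, b9_6_6 q, b9_6_7 q]
  ring

theorem b9_7_3 (q : ℤ) : a9 (128 * (2 * q + 1) - 1 - 3) = (-1772319744) * a9 (q - 0) + 3414029451264 * a9 (q - 1) + (-17174106083328) * a9 (q - 2) + (-435635670122496) * a9 (q - 3) + (-370981939746816) * a9 (q - 4) + 245541366415360 * a9 (q - 5) + 74023616065536 * a9 (q - 6) + (-687474671616) * a9 (q - 7) + (-2623214592) * a9 (q - 8) := by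
  have h := s9_3 (64 * (2 * q + 1) - 1)
  rw [show (2 * (64 * (2 * q + 1) - 1) + 1 - 3 : ℤ) = 128 * (2 * q + 1) - 1 - 3 by ring] at h
  rw [h]
  simp only [b9_6_0 q, b9_6_1 q, b9_6_2 q, b9_6_3 q, b9_6_4 q, b9_6_5 q, b9_6_6 q, b9_6_7 q]
  ring

theorem b9_7_4 (q : ℤ) : a9 (128 * (2 * q + 1) - 1 - 4) = (-2623214592) * a9 (q - 0) + (-687474671616) * a9 (q - 1) + 74023616065536 * a9 (q - 2) + 245541366415360 * a9 (q - 3) + (-370981939746816) * a9 (q - 4) + (-435635670122496) * a9 (q - 5) + (-17174106083328) * a9 (q - 6) + 3414029451264 * a9 (q - 7) + (-1772319744) * a9 (q - 8) := by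
  have h := s9_4 (64 * (2 * q + 1) - 1)
  rw [show (2 * (64 * (2 * q + 1) - 1) + 1 - 4 : ℤ) = 128 * (2 * q + 1) - 1 - 4 by ring] at h
  rw [h]
  simp only [b9_6_0 q, b9_6_1 q, b9_6_2 q, b9_6_3 q, b9_6_4 q, b9_6_5 q, b9_6_6 q, b9_6_7 q]
  ring

theorem b9_7_5 (q : ℤ) : a9 (128 * (2 * q + 1) - 1 - 5) = 4042994688 * a9 (q - 0) + (-2525024419840) * a9 (q - 1) + (-56328031088640) * a9 (q - 2) + 174013895393280 * a9 (q - 3) + 723133837105152 * a9 (q - 4) + 193148389195776 * a9 (q - 5) + (-55840562049024) * a9 (q - 6) + (-2745550454784) * a9 (q - 7) + 4695561216 * a9 (q - 8) := by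
  have h := s9_5 (64 * (2 * q + 1) - 1)
  rw [show (2 * (64 * (2 * q + 1) - 1) + 1 - 5 : ℤ) = 128 * (2 * q + 1) - 1 - 5 by ring] at h
  rw [h]
  simp only [b9_6_0 q, b9_6_1 q, b9_6_2 q, b9_6_3 q, b9_6_4 q, b9_6_5 q, b9_6_6 q, b9_6_7 q]
  ring

theorem b9_7_6 (q : ℤ) : a9 (128 * (2 * q + 1) - 1 - 6) = (-1373027328) * a9 (q - 0) + 3107430383616 * a9 (q - 1) + (-18408762028032) * a9 (q - 2) + (-413716203601920) * a9 (q - 3) + (-334007930456064) * a9 (q - 4) + 251572584824832 * a9 (q - 5) + 73190143365120 * a9 (q - 6) + (-773390204928) * a9 (q - 7) + (-3015285760) * a9 (q - 8) := by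
  have h := s9_6 (64 * (2 * q + 1) - 1)
  rw [show (2 * (64 * (2 * q + 1) - 1) + 1 - 6 : ℤ) = 128 * (2 * q + 1) - 1 - 6 by ring] at h
  rw [h]
  simp only [b9_6_0 q, b9_6_1 q, b9_6_2 q, b9_6_3 q, b9_6_4 q, b9_6_5 q, b9_6_6 q, b9_6_7 q]
  ring

theorem b9_7_7 (q : ℤ) : a9 (128 * (2 * q + 1) - 1 - 7) = (-2369823744) * a9 (q - 0) + (-598800384000) * a9 (q - 1) + 73399695519744 * a9 (q - 2) + 236270355775488 * a9 (q - 3) + (-390637157824512) * a9 (q - 4) + (-443296526745600) * a9 (q - 5) + (-16239266533376) * a9 (q - 6) + 3570070192128 * a9 (q - 7) + (-1994572800) * a9 (q - 8) := by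
  have h := s9_7 (64 * (2 * q + 1) - 1)
  rw [show (2 * (64 * (2 * q + 1) - 1) + 1 - 7 : ℤ) = 128 * (2 * q + 1) - 1 - 7 by ring] at h
  rw [h]
  simp only [b9_6_0 q, b9_6_1 q, b9_6_2 q, b9_6_3 q, b9_6_4 q, b9_6_5 q, b9_6_6 q, b9_6_7 q]
  ring

theorem b9_8_0 (q : ℤ) : a9 (256 * (2 * q + 1) - 1 - 0) = (-253978828800) * a9 (q - 0) + 256555917213696 * a9 (q - 1) + 1578336377241600 * a9 (q - 2) + (-26041782665248768) * a9 (q - 3) + (-45816131125886976) * a9 (q - 4) + 2296123560198144 * a9 (q - 5) + 5335394595569664 * a9 (q - 6) + 83853186859008 * a9 (q - 7) + (-276546576384) * a9 (q - 8) := by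
  have h := s9_0 (128 * (2 * q + 1) - 1)
  rw [show (2 * (128 * (2 * q + 1) - 1) + 1 - 0 : ℤ) = 256 * (2 * q + 1) - 1 - 0 by ring] at h
  rw [h]
  simp only [b9_7_0 q, b9_7_1 q, b9_7_2 q, b9_7_3 q, b9_7_4 q, b9_7_5 q, b9_7_6 q, b9_7_7 q]
  ring

theorem b9_8_1 (q : ℤ) : a9 (256 * (2 * q + 1) - 1 - 1) = 308612063232 * a9 (q - 0) + (-89620132626432) * a9 (q - 1) + (-5193717289975808) * a9 (q - 2) + (-1433510426935296) * a9 (q - 3) + 44198620424552448 * a9 (q - 4) + 23972991593447424 * a9 (q - 5) + (-1623230859902976) * a9 (q - 6) + (-233905990828032) * a9 (q - 7) + 221317619712 * a9 (q - 8) := by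
  have h := s9_1 (128 * (2 * q + 1) - 1)
  rw [show (2 * (128 * (2 * q + 1) - 1) + 1 - 1 : ℤ) = 256 * (2 * q + 1) - 1 - 1 by ring] at h
  rw [h]
  simp only [b9_7_0 q, b9_7_1 q, b9_7_2 q, b9_7_3 q, b9_7_4 q, b9_7_5 q, b9_7_6 q, b9_7_7 q]
  ring

theorem b9_8_2 (q : ℤ) : a9 (256 * (2 * q + 1) - 1 - 2) = (-53584551936) * a9 (q - 0) + (-165306848215040) * a9 (q - 1) + 3587311141060608 * a9 (q - 2) + 27387973393219584 * a9 (q - 3) + 1638769459150848 * a9 (q - 4) + (-26342197813739520) * a9 (q - 5) + (-3755633773510656) * a9 (q - 6) + 150597476646912 * a9 (q - 7) + 62378680320 * a9 (q - 8) := by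
  have h := s9_2 (128 * (2 * q + 1) - 1)
  rw [show (2 * (128 * (2 * q + 1) - 1) + 1 - 2 : ℤ) = 256 * (2 * q + 1) - 1 - 2 by ring] at h
  rw [h]
  simp only [b9_7_0 q, b9_7_1 q, b9_7_2 q, b9_7_3 q, b9_7_4 q, b9_7_5 q, b9_7_6 q, b9_7_7 q]
  ring

theorem b9_8_3 (q : ℤ) : a9 (256 * (2 * q + 1) - 1 - 3) = (-241250443264) * a9 (q - 0) + 250081412087808 * a9 (q - 1) + 1610024012808192 * a9 (q - 2) + (-25493580002131968) * a9 (q - 3) + (-45699192607555584) * a9 (q - 4) + 1933935411363840 * a9 (q - 5) + 5335567773597696 * a9 (q - 6) + 87653262458880 * a9 (q - 7) + (-292965064704) * a9 (q - 8) := by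
  have h := s9_3 (128 * (2 * q + 1) - 1)
  rw [show (2 * (128 * (2 * q + 1) - 1) + 1 - 3 : ℤ) = 256 * (2 * q + 1) - 1 - 3 by ring] at h
  rw [h]
  simp only [b9_7_0 q, b9_7_1 q, b9_7_2 q, b9_7_3 q, b9_7_4 q, b9_7_5 q, b9_7_6 q, b9_7_7 q]
  ring

theorem b9_8_4 (q : ℤ) : a9 (256 * (2 * q + 1) - 1 - 4) = 292965064704 * a9 (q - 0) + (-87653262458880) * a9 (q - 1) + (-5335567773597696) * a9 (q - 2) + (-1933935411363840) * a9 (q - 3) + 45699192607555584 * a9 (q - 4) + 25493580002131968 * a9 (q - 5) + (-1610024012808192) * a9 (q - 6) + (-250081412087808) * a9 (q - 7) + 241250443264 * a9 (q - 8) := by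
  have h := s9_4 (128 * (2 * q + 1) - 1)
  rw [show (2 * (128 * (2 * q + 1) - 1) + 1 - 4 : ℤ) = 256 * (2 * q + 1) - 1 - 4 by ring] at h
  rw [h]
  simp only [b9_7_0 q, b9_7_1 q, b9_7_2 q, b9_7_3 q, b9_7_4 q, b9_7_5 q, b9_7_6 q, b9_7_7 q]
  ring

theorem b9_8_5 (q : ℤ) : a9 (256 * (2 * q + 1) - 1 - 5) = (-62378680320) * a9 (q - 0) + (-150597476646912) * a9 (q - 1) + 3755633773510656 * a9 (q - 2) + 26342197813739520 * a9 (q - 3) + (-1638769459150848) * a9 (q - 4) + (-27387973393219584) * a9 (q - 5) + (-3587311141060608) * a9 (q - 6) + 165306848215040 * a9 (q - 7) + 53584551936 * a9 (q - 8) := by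
  have h := s9_5 (128 * (2 * q + 1) - 1)
  rw [show (2 * (128 * (2 * q + 1) - 1) + 1 - 5 : ℤ) = 256 * (2 * q + 1) - 1 - 5 by ring] at h
  rw [h]
  simp only [b9_7_0 q, b9_7_1 q, b9_7_2 q, b9_7_3 q, b9_7_4 q, b9_7_5 q, b9_7_6 q, b9_7_7 q]
  ring

theorem b9_8_6 (q : ℤ) : a9 (256 * (2 * q + 1) - 1 - 6) = (-221317619712) * a9 (q - 0) + 233905990828032 * a9 (q - 1) + 1623230859902976 * a9 (q - 2) + (-23972991593447424) * a9 (q - 3) + (-44198620424552448) * a9 (q - 4) + 1433510426935296 * a9 (q - 5) + 5193717289975808 * a9 (q - 6) + 89620132626432 * a9 (q - 7) + (-308612063232) * a9 (q - 8) := by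
  have h := s9_6 (128 * (2 * q + 1) - 1)
  rw [show (2 * (128 * (2 * q + 1) - 1) + 1 - 6 : ℤ) = 256 * (2 * q + 1) - 1 - 6 by ring] at h
  rw [h]
  simp only [b9_7_0 q, b9_7_1 q, b9_7_2 q, b9_7_3 q, b9_7_4 q, b9_7_5 q, b9_7_6 q, b9_7_7 q]
  ring

theorem b9_8_7 (q : ℤ) : a9 (256 * (2 * q + 1) - 1 - 7) = 276546576384 * a9 (q - 0) + (-83853186859008) * a9 (q - 1) + (-5335394595569664) * a9 (q - 2) + (-2296123560198144) * a9 (q - 3) + 45816131125886976 * a9 (q - 4) + 26041782665248768 * a9 (q - 5) + (-1578336377241600) * a9 (q - 6) + (-256555917213696) * a9 (q - 7) + 253978828800 * a9 (q - 8) := by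
  have h := s9_7 (128 * (2 * q + 1) - 1)
  rw [show (2 * (128 * (2 * q + 1) - 1) + 1 - 7 : ℤ) = 256 * (2 * q + 1) - 1 - 7 by ring] at h
  rw [h]
  simp only [b9_7_0 q, b9_7_1 q, b9_7_2 q, b9_7_3 q, b9_7_4 q, b9_7_5 q, b9_7_6 q, b9_7_7 q]
  ring

theorem b9_9_0 (q : ℤ) : a9 (512 * (2 * q + 1) - 1 - 0) = (-8493899415552) * a9 (q - 0) + 17132473188089856 * a9 (q - 1) + (-82559275498340352) * a9 (q - 2) + (-2176390912207749120) * a9 (q - 3) + (-1907352146117984256) * a9 (q - 4) + 1189605263828582400 * a9 (q - 5) + 371072280497356800 * a9 (q - 6) + (-2987293546119168) * a9 (q - 7) + (-13655982702592) * a9 (q - 8) := by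
  have h := s9_0 (256 * (2 * q + 1) - 1)
  rw [show (2 * (256 * (2 * q + 1) - 1) + 1 - 0 : ℤ) = 512 * (2 * q + 1) - 1 - 0 by ring] at h
  rw [h]
  simp only [b9_8_0 q, b9_8_1 q, b9_8_2 q, b9_8_3 q, b9_8_4 q, b9_8_5 q, b9_8_6 q, b9_8_7 q]
  ring

theorem b9_9_1 (q : ℤ) : a9 (512 * (2 * q + 1) - 1 - 1) = (-13523949748224) * a9 (q - 0) + (-3580472479186944) * a9 (q - 1) + 353827624825257984 * a9 (q - 2) + 1214370350629388288 * a9 (q - 3) + (-1675620289555660800) * a9 (q - 4) + (-2061900309033123840) * a9 (q - 5) + (-92613294956347392) * a9 (q - 6) + 15750660912316416 * a9 (q - 7) + (-6887209992192) * a9 (q - 8) := by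
  have h := s9_1 (256 * (2 * q + 1) - 1)
  rw [show (2 * (256 * (2 * q + 1) - 1) + 1 - 1 : ℤ) = 512 * (2 * q + 1) - 1 - 1 by ring] at h
  rw [h]
  simp only [b9_8_0 q, b9_8_1 q, b9_8_2 q, b9_8_3 q, b9_8_4 q, b9_8_5 q, b9_8_6 q, b9_8_7 q]
  ring

theorem b9_9_2 (q : ℤ) : a9 (512 * (2 * q + 1) - 1 - 2) = 21636785995776 * a9 (q - 0) + (-13511786554195968) * a9 (q - 1) + (-269128899777134592) * a9 (q - 2) + 967782386075959296 * a9 (q - 3) + 3579121885749510144 * a9 (q - 4) + 862930923497717760 * a9 (q - 5) + (-280651049157132288) * a9 (q - 6) + (-12751721203761152) * a9 (q - 7) + 20943329918976 * a9 (q - 8) := by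
  have h := s9_2 (256 * (2 * q + 1) - 1)
  rw [show (2 * (256 * (2 * q + 1) - 1) + 1 - 2 : ℤ) = 512 * (2 * q + 1) - 1 - 2 by ring] at h
  rw [h]
  simp only [b9_8_0 q, b9_8_1 q, b9_8_2 q, b9_8_3 q, b9_8_4 q, b9_8_5 q, b9_8_6 q, b9_8_7 q]
  ring

theorem b9_9_3 (q : ℤ) : a9 (512 * (2 * q + 1) - 1 - 3) = (-7970330345472) * a9 (q - 0) + 16751339918327808 * a9 (q - 1) + (-87574479618572288) * a9 (q - 2) + (-2153028342770565120) * a9 (q - 3) + (-1830920693695709184) * a9 (q - 4) + 1214298691770777600 * a9 (q - 5) + 367927675421589504 * a9 (q - 6) + (-3287162743160832) * a9 (q - 7) + (-13699349839872) * a9 (q - 8) := by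
  have h := s9_3 (256 * (2 * q + 1) - 1)
  rw [show (2 * (256 * (2 * q + 1) - 1) + 1 - 3 : ℤ) = 512 * (2 * q + 1) - 1 - 3 by ring] at h
  rw [h]
  simp only [b9_8_0 q, b9_8_1 q, b9_8_2 q, b9_8_3 q, b9_8_4 q, b9_8_5 q, b9_8_6 q, b9_8_7 q]
  ring

theorem b9_9_4 (q : ℤ) : a9 (512 * (2 * q + 1) - 1 - 4) = (-13699349839872) * a9 (q - 0) + (-3287162743160832) * a9 (q - 1) + 367927675421589504 * a9 (q - 2) + 1214298691770777600 * a9 (q - 3) + (-1830920693695709184) * a9 (q - 4) + (-2153028342770565120) * a9 (q - 5) + (-87574479618572288) * a9 (q - 6) + 16751339918327808 * a9 (q - 7) + (-7970330345472) * a9 (q - 8) := by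
  have h := s9_4 (256 * (2 * q + 1) - 1)
  rw [show (2 * (256 * (2 * q + 1) - 1) + 1 - 4 : ℤ) = 512 * (2 * q + 1) - 1 - 4 by ring] at h
  rw [h]
  simp only [b9_8_0 q, b9_8_1 q, b9_8_2 q, b9_8_3 q, b9_8_4 q, b9_8_5 q, b9_8_6 q, b9_8_7 q]
  ring

theorem b9_9_5 (q : ℤ) : a9 (512 * (2 * q + 1) - 1 - 5) = 20943329918976 * a9 (q - 0) + (-12751721203761152) * a9 (q - 1) + (-280651049157132288) * a9 (q - 2) + 862930923497717760 * a9 (q - 3) + 3579121885749510144 * a9 (q - 4) + 967782386075959296 * a9 (q - 5) + (-269128899777134592) * a9 (q - 6) + (-13511786554195968) * a9 (q - 7) + 21636785995776 * a9 (q - 8) := by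
  have h := s9_5 (256 * (2 * q + 1) - 1)
  rw [show (2 * (256 * (2 * q + 1) - 1) + 1 - 5 : ℤ) = 512 * (2 * q + 1) - 1 - 5 by ring] at h
  rw [h]
  simp only [b9_8_0 q, b9_8_1 q, b9_8_2 q, b9_8_3 q, b9_8_4 q, b9_8_5 q, b9_8_6 q, b9_8_7 q]
  ring

theorem b9_9_6 (q : ℤ) : a9 (512 * (2 * q + 1) - 1 - 6) = (-6887209992192) * a9 (q - 0) + 15750660912316416 * a9 (q - 1) + (-92613294956347392) * a9 (q - 2) + (-2061900309033123840) * a9 (q - 3) + (-1675620289555660800) * a9 (q - 4) + 1214370350629388288 * a9 (q - 5) + 353827624825257984 * a9 (q - 6) + (-3580472479186944) * a9 (q - 7) + (-13523949748224) * a9 (q - 8) := by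
  have h := s9_6 (256 * (2 * q + 1) - 1)
  rw [show (2 * (256 * (2 * q + 1) - 1) + 1 - 6 : ℤ) = 512 * (2 * q + 1) - 1 - 6 by ring] at h
  rw [h]
  simp only [b9_8_0 q, b9_8_1 q, b9_8_2 q, b9_8_3 q, b9_8_4 q, b9_8_5 q, b9_8_6 q, b9_8_7 q]
  ring

theorem b9_9_7 (q : ℤ) : a9 (512 * (2 * q + 1) - 1 - 7) = (-13655982702592) * a9 (q - 0) + (-2987293546119168) * a9 (q - 1) + 371072280497356800 * a9 (q - 2) + 1189605263828582400 * a9 (q - 3) + (-1907352146117984256) * a9 (q - 4) + (-2176390912207749120) * a9 (q - 5) + (-82559275498340352) * a9 (q - 6) + 17132473188089856 * a9 (q - 7) + (-8493899415552) * a9 (q - 8) := by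
  have h := s9_7 (256 * (2 * q + 1) - 1)
  rw [show (2 * (256 * (2 * q + 1) - 1) + 1 - 7 : ℤ) = 512 * (2 * q + 1) - 1 - 7 by ring] at h
  rw [h]
  simp only [b9_8_0 q, b9_8_1 q, b9_8_2 q, b9_8_3 q, b9_8_4 q, b9_8_5 q, b9_8_6 q, b9_8_7 q]
  ring

theorem b9_10_0 (q : ℤ) : a9 (1024 * (2 * q + 1) - 1 - 0) = (-1213146919600128) * a9 (q - 0) + 1249291461070946304 * a9 (q - 1) + 7716507956929363968 * a9 (q - 2) + (-128065450240600178688) * a9 (q - 3) + (-225307018299959672832) * a9 (q - 4) + 12202157662635294720 * a9 (q - 5) + 26644076610096988160 * a9 (q - 6) + 412133515789860864 * a9 (q - 7) + (-1436283161542656) * a9 (q - 8) := by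
  have h := s9_0 (512 * (2 * q + 1) - 1)
  rw [show (2 * (512 * (2 * q + 1) - 1) + 1 - 0 : ℤ) = 1024 * (2 * q + 1) - 1 - 0 by ring] at h
  rw [h]
  simp only [b9_9_0 q, b9_9_1 q, b9_9_2 q, b9_9_3 q, b9_9_4 q, b9_9_5 q, b9_9_6 q, b9_9_7 q]
  ring

theorem b9_10_1 (q : ℤ) : a9 (1024 * (2 * q + 1) - 1 - 1) = 1438077047537664 * a9 (q - 0) + (-436721553440243712) * a9 (q - 1) + (-25299913362873778176) * a9 (q - 2) + (-6444170210769371136) * a9 (q - 3) + 218464050520615550976 * a9 (q - 4) + 118314325523158794240 * a9 (q - 5) + (-8207284112883449856) * a9 (q - 6) + (-1168039983537192960) * a9 (q - 7) + 1154785667710976 * a9 (q - 8) := by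
  have h := s9_1 (512 * (2 * q + 1) - 1)
  rw [show (2 * (512 * (2 * q + 1) - 1) + 1 - 1 : ℤ) = 1024 * (2 * q + 1) - 1 - 1 by ring] at h
  rw [h]
  simp only [b9_9_0 q, b9_9_1 q, b9_9_2 q, b9_9_3 q, b9_9_4 q, b9_9_5 q, b9_9_6 q, b9_9_7 q]
  ring

theorem b9_10_2 (q : ℤ) : a9 (1024 * (2 * q + 1) - 1 - 2) = (-219279588065280) * a9 (q - 0) + (-812364926886608896) * a9 (q - 1) + 17492018123772002304 * a9 (q - 2) + 134480833775800418304 * a9 (q - 3) + 7464374695997472768 * a9 (q - 4) + (-130389492001963769856) * a9 (q - 5) + (-18528869153268301824) * a9 (q - 6) + 754034688037748736 * a9 (q - 7) + 294158363000832 * a9 (q - 8) := by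
  have h := s9_2 (512 * (2 * q + 1) - 1)
  rw [show (2 * (512 * (2 * q + 1) - 1) + 1 - 2 : ℤ) = 1024 * (2 * q + 1) - 1 - 2 by ring] at h
  rw [h]
  simp only [b9_9_0 q, b9_9_1 q, b9_9_2 q, b9_9_3 q, b9_9_4 q, b9_9_5 q, b9_9_6 q, b9_9_7 q]
  ring

theorem b9_10_3 (q : ℤ) : a9 (1024 * (2 * q + 1) - 1 - 3) = (-1201116694708224) * a9 (q - 0) + 1229776880019701760 * a9 (q - 1) + 8010868093907632128 * a9 (q - 2) + (-125459566519502503936) * a9 (q - 3) + (-225108481106926632960) * a9 (q - 4) + 9860908781958856704 * a9 (q - 5) + 26384419652552884224 * a9 (q - 6) + 428012666090422272 * a9 (q - 7) + (-1453822087790592) * a9 (q - 8) := by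
  have h := s9_3 (512 * (2 * q + 1) - 1)
  rw [show (2 * (512 * (2 * q + 1) - 1) + 1 - 3 : ℤ) = 1024 * (2 * q + 1) - 1 - 3 by ring] at h
  rw [h]
  simp only [b9_9_0 q, b9_9_1 q, b9_9_2 q, b9_9_3 q, b9_9_4 q, b9_9_5 q, b9_9_6 q, b9_9_7 q]
  ring

theorem b9_10_4 (q : ℤ) : a9 (1024 * (2 * q + 1) - 1 - 4) = 1453822087790592 * a9 (q - 0) + (-428012666090422272) * a9 (q - 1) + (-26384419652552884224) * a9 (q - 2) + (-9860908781958856704) * a9 (q - 3) + 225108481106926632960 * a9 (q - 4) + 125459566519502503936 * a9 (q - 5) + (-8010868093907632128) * a9 (q - 6) + (-1229776880019701760) * a9 (q - 7) + 1201116694708224 * a9 (q - 8) := by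
  have h := s9_4 (512 * (2 * q + 1) - 1)
  rw [show (2 * (512 * (2 * q + 1) - 1) + 1 - 4 : ℤ) = 1024 * (2 * q + 1) - 1 - 4 by ring] at h
  rw [h]
  simp only [b9_9_0 q, b9_9_1 q, b9_9_2 q, b9_9_3 q, b9_9_4 q, b9_9_5 q, b9_9_6 q, b9_9_7 q]
  ring

theorem b9_10_5 (q : ℤ) : a9 (1024 * (2 * q + 1) - 1 - 5) = (-294158363000832) * a9 (q - 0) + (-754034688037748736) * a9 (q - 1) + 18528869153268301824 * a9 (q - 2) + 130389492001963769856 * a9 (q - 3) + (-7464374695997472768) * a9 (q - 4) + (-134480833775800418304) * a9 (q - 5) + (-17492018123772002304) * a9 (q - 6) + 812364926886608896 * a9 (q - 7) + 219279588065280 * a9 (q - 8) := by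
  have h := s9_5 (512 * (2 * q + 1) - 1)
  rw [show (2 * (512 * (2 * q + 1) - 1) + 1 - 5 : ℤ) = 1024 * (2 * q + 1) - 1 - 5 by ring] at h
  rw [h]
  simp only [b9_9_0 q, b9_9_1 q, b9_9_2 q, b9_9_3 q, b9_9_4 q, b9_9_5 q, b9_9_6 q, b9_9_7 q]
  ring

theorem b9_10_6 (q : ℤ) : a9 (1024 * (2 * q + 1) - 1 - 6) = (-1154785667710976) * a9 (q - 0) + 1168039983537192960 * a9 (q - 1) + 8207284112883449856 * a9 (q - 2) + (-118314325523158794240) * a9 (q - 3) + (-218464050520615550976) * a9 (q - 4) + 6444170210769371136 * a9 (q - 5) + 25299913362873778176 * a9 (q - 6) + 436721553440243712 * a9 (q - 7) + (-1438077047537664) * a9 (q - 8) := by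
  have h := s9_6 (512 * (2 * q + 1) - 1)
  rw [show (2 * (512 * (2 * q + 1) - 1) + 1 - 6 : ℤ) = 1024 * (2 * q + 1) - 1 - 6 by ring] at h
  rw [h]
  simp only [b9_9_0 q, b9_9_1 q, b9_9_2 q, b9_9_3 q, b9_9_4 q, b9_9_5 q, b9_9_6 q, b9_9_7 q]
  ring

theorem b9_10_7 (q : ℤ) : a9 (1024 * (2 * q + 1) - 1 - 7) = 1436283161542656 * a9 (q - 0) + (-412133515789860864) * a9 (q - 1) + (-26644076610096988160) * a9 (q - 2) + (-12202157662635294720) * a9 (q - 3) + 225307018299959672832 * a9 (q - 4) + 128065450240600178688 * a9 (q - 5) + (-7716507956929363968) * a9 (q - 6) + (-1249291461070946304) * a9 (q - 7) + 1213146919600128 * a9 (q - 8) := by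
  have h := s9_7 (512 * (2 * q + 1) - 1)
  rw [show (2 * (512 * (2 * q + 1) - 1) + 1 - 7 : ℤ) = 1024 * (2 * q + 1) - 1 - 7 by ring] at h
  rw [h]
  simp only [b9_9_0 q, b9_9_1 q, b9_9_2 q, b9_9_3 q, b9_9_4 q, b9_9_5 q, b9_9_6 q, b9_9_7 q]
  ring

end Pool.Agent.Work.MP_1a5b88_nt
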