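import Mathlib
import Pool.Agent.Work.MP_1a5b88_nt.Lin5
import Pool.Agent.Work.MP_1a5b88_nt.Lin9

namespace Pool.Agent.Work.MP_1a5b88_nt

theorem parity5 (q : ℕ) : (a5 q + a5 (q - 4)) % 2 = 1 := by
  induction q using Nat.strong_induction_on with
  | _ q ih =>
    rcases Nat.even_or_odd' q with ⟨c, hc | hc⟩
    · rcases Nat.eq_zero_or_pos c with h0 | h0
      · subst h0
        subst hc
        have h1 := a5_zero
        have h2 := a5_neg (-4) (by norm_num)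
        norm_num
        rw [h1, h2]
        norm_num
      · have h := ih c (by omega)
        subst hc
        have h1 := a5_even (c : ℤ)
        have h2 := a5_even ((c : ℤ) - 2)
        rw [show (2 * ((c : ℤ) - 2)) = ((2 * c : ℕ) : ℤ) - 4 by push_cast; ring] at h2
        rw [show (2 * (c : ℤ)) = ((2 * c : ℕ) : ℤ) by push_cast; ring] at h1
        simp only [sub_sub] at h1 h2
        norm_num at h1 h2 h ⊢
        omega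
    · have h := ih c (by omega)
      subst hc
      have h1 := a5_odd (c : ℤ)
      have h2 := a5_odd ((c : ℤ) - 2)
      rw [show (2 * ((c : ℤ) - 2) + 1) = ((2 * c + 1 : ℕ) : ℤ) - 4 by push_cast; ring] at h2
      rw [show (2 * (c : ℤ) + 1) = ((2 * c + 1 : ℕ) : ℤ) by push_cast; ring] at h1
      simp only [sub_sub] at h1 h2
      norm_num at h1 h2 h ⊢
      omega

theorem base5_0 (q : ℕ) : a5 (4 * (2 * (q : ℤ) + 1) - 1 - 0) % 2 = 1 ∧ a5 (4 * (2 * (q : ℤ) + 1) - 1 - 1) % 2 = 1 ∧ a5 (4 * (2 * (q : ℤ) + 1) - 1 - 2) % 2 = 1 ∧ a5 (4 * (2 * (q : ℤ) + 1) - 1 - 3) % 2 = 1 := by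
  have h := parity5 q
  rw [show (q : ℤ) = (q : ℤ) - 0 by ring] at h
  simp only [sub_sub, zero_add] at h
  refine ⟨?_, ?_, ?_, ?_⟩
  · rw [b5_2_0]
    omega
  · rw [b5_2_1]
    omega
  · rw [b5_2_2]
    omega
  · rw [b5_2_3]
    omega

theorem base5_1 (q : ℕ) : a5 (8 * (2 * (q : ℤ) + 1) - 1 - 0) % 16 = 8 ∧ a5 (8 * (2 * (q : ℤ) + 1) - 1 - 1) % 16 = 8 ∧ a5 (8 * (2 * (q : ℤ) + 1) - 1 - 2) % 16 = 8 ∧ a5 (8 * (2 * (q : ℤ) + 1) - 1 - 3) % 16 = 8 := by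
  have h := parity5 q
  rw [show (q : ℤ) = (q : ℤ) - 0 by ring] at h
  simp only [sub_sub, zero_add] at h
  refine ⟨?_, ?_, ?_, ?_⟩
  · rw [b5_3_0]
    omega
  · rw [b5_3_1]
    omega
  · rw [b5_3_2]
    omega
  · rw [b5_3_3]
    omega

theorem base5_2 (q : ℕ) : a5 (16 * (2 * (q : ℤ) + 1) - 1 - 0) % 32 = 16 ∧ a5 (16 * (2 * (q : ℤ) + 1) - 1 - 1) % 32 = 16 ∧ a5 (16 * (2 * (q : ℤ) + 1) - 1 - 2) % 32 = 16 ∧ a5 (16 * (2 * (q : ℤ) + 1) - 1 - 3) % 32 = 16 := by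
  have h := parity5 q
  rw [show (q : ℤ) = (q : ℤ) - 0 by ring] at h
  simp only [sub_sub, zero_add] at h
  refine ⟨?_, ?_, ?_, ?_⟩
  · rw [b5_4_0]
    omega
  · rw [b5_4_1]
    omega
  · rw [b5_4_2]
    omega
  · rw [b5_4_3]
    omega

theorem base5_3 (q : ℕ) : a5 (32 * (2 * (q : ℤ) + 1) - 1 - 0) % 256 = 128 ∧ a5 (32 * (2 * (q : ℤ) + 1) - 1 - 1) % 256 = 128 ∧ a5 (32 * (2 * (q : ℤ) + 1) - 1 - 2) % 256 = 128 ∧ a5 (32 * (2 * (q : ℤ) + 1) - 1 - 3) % 256 = 128 := by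
  have h := parity5 q
  rw [show (q : ℤ) = (q : ℤ) - 0 by ring] at h
  simp only [sub_sub, zero_add] at h
  refine ⟨?_, ?_, ?_, ?_⟩
  · rw [b5_5_0]
    omega
  · rw [b5_5_1]
    omega
  · rw [b5_5_2]
    omega
  · rw [b5_5_3]
    omega

theorem parity9 (q : ℕ) : (a9 q + a9 (q - 8)) % 2 = 1 := by
  induction q using Nat.strong_induction_on with
  | _ q ih =>
    rcases Nat.even_or_odd' q with ⟨c, hc | hc⟩
    · rcases Nat.eq_zero_or_pos c with h0 | h0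
      · subst h0
        subst hc
        have h1 := a9_zero
        have h2 := a9_neg (-8) (by norm_num)
        norm_num
        rw [h1, h2]
        norm_num
      · have h := ih c (by omega)
        subst hc
        have h1 := a9_even (c : ℤ)
        have h2 := a9_even ((c : ℤ) - 4)
        rw [show (2 * ((c : ℤ) - 4)) = ((2 * c : ℕ) : ℤ) - 8 by push_cast; ring] at h2
        rw [show (2 * (c : ℤ)) = ((2 * c : ℕ) : ℤ) by push_cast; ring] at h1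
        simp only [sub_sub] at h1 h2
        norm_num at h1 h2 h ⊢
        omega
    · have h := ih c (by omega)
      subst hc
      have h1 := a9_odd (c : ℤ)
      have h2 := a9_odd ((c : ℤ) - 4)
      rw [show (2 * ((c : ℤ) - 4) + 1) = ((2 * c + 1 : ℕ) : ℤ) - 8 by push_cast; ring] at h2
      rw [show (2 * (c : ℤ) + 1) = ((2 * c + 1 : ℕ) : ℤ) by push_cast; ring] at h1
      simp only [sub_sub] at h1 h2
      norm_num at h1 h2 h ⊢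
      omega

theorem base9_0 (q : ℕ) : a9 (8 * (2 * (q : ℤ) + 1) - 1 - 0) % 2 = 1 ∧ a9 (8 * (2 * (q : ℤ) + 1) - 1 - 1) % 2 = 1 ∧ a9 (8 * (2 * (q : ℤ) + 1) - 1 - 2) % 2 = 1 ∧ a9 (8 * (2 * (q : ℤ) + 1) - 1 - 3) % 2 = 1 ∧ a9 (8 * (2 * (q : ℤ) + 1) - 1 - 4) % 2 = 1 ∧ a9 (8 * (2 * (q : ℤ) + 1) - 1 - 5) % 2 = 1 ∧ a9 (8 * (2 * (q : ℤ) + 1) - 1 - 6) % 2 = 1 ∧ a9 (8 * (2 * (q : ℤ) + 1) - 1 - 7) % 2 = 1 := by
  have h := parity9 q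
  rw [show (q : ℤ) = (q : ℤ) - 0 by ring] at h
  simp only [sub_sub, zero_add] at h
  refine ⟨?_, ?_, ?_, ?_, ?_, ?_, ?_, ?_⟩
  · rw [b9_3_0]
    omega
  · rw [b9_3_1]
    omega
  · rw [b9_3_2]
    omega
  · rw [b9_3_3]
    omega
  · rw [b9_3_4]
    omega
  · rw [b9_3_5]
    omega
  · rw [b9_3_6]
    omega
  · rw [b9_3_7]
    omega

theorem base9_1 (q : ℕ) : a9 (16 * (2 * (q : ℤ) + 1) - 1 - 0) % 16 = 8 ∧ a9 (16 * (2 * (q : ℤ) + 1) - 1 - 1) % 16 = 8 ∧ a9 (16 * (2 * (q : ℤ) + 1) - 1 - 2) % 16 = 8 ∧ a9 (16 * (2 * (q : ℤ) + 1) - 1 - 3) % 16 = 8 ∧ a9 (16 * (2 * (q : ℤ) + 1) - 1 - 4) % 16 = 8 ∧ a9 (16 * (2 * (q : ℤ) + 1) - 1 - 5) % 16 = 8 ∧ a9 (16 * (2 * (q : ℤ) + 1) - 1 - 6) % 16 = 8 ∧ a9 (16 * (2 * (q : ℤ) + 1) - 1 - 7) % 16 = 8 := by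
  have h := parity9 q
  rw [show (q : ℤ) = (q : ℤ) - 0 by ring] at h
  simp only [sub_sub, zero_add] at h
  refine ⟨?_, ?_, ?_, ?_, ?_, ?_, ?_, ?_⟩
  · rw [b9_4_0]
    omega
  · rw [b9_4_1]
    omega
  · rw [b9_4_2]
    omega
  · rw [b9_4_3]
    omega
  · rw [b9_4_4]
    omega
  · rw [b9_4_5]
    omega
  · rw [b9_4_6]
    omega
  · rw [b9_4_7]
    omega

theorem base9_2 (q : ℕ) : a9 (32 * (2 * (q : ℤ) + 1) - 1 - 0) % 64 = 32 ∧ a9 (32 * (2 * (q : ℤ) + 1) - 1 - 1) % 64 = 32 ∧ a9 (32 * (2 * (q : ℤ) + 1) - 1 - 2) % 64 = 32 ∧ a9 (32 * (2 * (q : ℤ) + 1) - 1 - 3) % 64 = 32 ∧ a9 (32 * (2 * (q : ℤ) + 1) - 1 - 4) % 64 = 32 ∧ a9 (32 * (2 * (q : ℤ) + 1) - 1 - 5) % 64 = 32 ∧ a9 (32 * (2 * (q : ℤ) + 1) - 1 - 6) % 64 = 32 ∧ a9 (32 * (2 * (q : ℤ) + 1) - 1 - 7) % 64 = 32 := by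
  have h := parity9 q
  rw [show (q : ℤ) = (q : ℤ) - 0 by ring] at h
  simp only [sub_sub, zero_add] at h
  refine ⟨?_, ?_, ?_, ?_, ?_, ?_, ?_, ?_⟩
  · rw [b9_5_0]
    omega
  · rw [b9_5_1]
    omega
  · rw [b9_5_2]
    omega
  · rw [b9_5_3]
    omega
  · rw [b9_5_4]
    omega
  · rw [b9_5_5]
    omega
  · rw [b9_5_6]
    omega
  · rw [b9_5_7]
    omega

theorem base9_3 (q : ℕ) : a9 (64 * (2 * (q : ℤ) + 1) - 1 - 0) % 512 = 256 ∧ a9 (64 * (2 * (q : ℤ) + 1) - 1 - 1) % 512 = 256 ∧ a9 (64 * (2 * (q : ℤ) + 1) - 1 - 2) % 512 = 256 ∧ a9 (64 * (2 * (q : ℤ) + 1) - 1 - 3) % 512 = 256 ∧ a9 (64 * (2 * (q : ℤ) + 1) - 1 - 4) % 512 = 256 ∧ a9 (64 * (2 * (q : ℤ) + 1) - 1 - 5) % 512 = 256 ∧ a9 (64 * (2 * (q : ℤ) + 1) - 1 - 6) % 512 = 256 ∧ a9 (64 * (2 * (q : ℤ) + 1) - 1 - 7) % 512 = 256 := by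
  have h := parity9 q
  rw [show (q : ℤ) = (q : ℤ) - 0 by ring] at h
  simp only [sub_sub, zero_add] at h
  refine ⟨?_, ?_, ?_, ?_, ?_, ?_, ?_, ?_⟩
  · rw [b9_6_0]
    omega
  · rw [b9_6_1]
    omega
  · rw [b9_6_2]
    omega
  · rw [b9_6_3]
    omega
  · rw [b9_6_4]
    omega
  · rw [b9_6_5]
    omega
  · rw [b9_6_6]
    omega
  · rw [b9_6_7]
    omega

theorem base9_4 (q : ℕ) : a9 (128 * (2 * (q : ℤ) + 1) - 1 - 0) % 2048 = 1024 ∧ a9 (128 * (2 * (q : ℤ) + 1) - 1 - 1) % 2048 = 1024 ∧ a9 (128 * (2 * (q : ℤ) + 1) - 1 - 2) % 2048 = 1024 ∧ a9 (128 * (2 * (q : ℤ) + 1) - 1 - 3) % 2048 = 1024 ∧ a9 (128 * (2 * (q : ℤ) + 1) - 1 - 4) % 2048 = 1024 ∧ a9 (128 * (2 * (q : ℤ) + 1) - 1 - 5) % 2048 = 1024 ∧ a9 (128 * (2 * (q : ℤ) + 1) - 1 - 6) % 2048 = 1024 ∧ a9 (128 * (2 * (q : ℤ) + 1) - 1 - 7) % 2048 = 1024 := by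
  have h := parity9 q
  rw [show (q : ℤ) = (q : ℤ) - 0 by ring] at h
  simp only [sub_sub, zero_add] at h
  refine ⟨?_, ?_, ?_, ?_, ?_, ?_, ?_, ?_⟩
  · rw [b9_7_0]
    omega
  · rw [b9_7_1]
    omega
  · rw [b9_7_2]
    omega
  · rw [b9_7_3]
    omega
  · rw [b9_7_4]
    omega
  · rw [b9_7_5]
    omega
  · rw [b9_7_6]
    omega
  · rw [b9_7_7]
    omega

theorem base9_5 (q : ℕ) : a9 (256 * (2 * (q : ℤ) + 1) - 1 - 0) % 16384 = 8192 ∧ a9 (256 * (2 * (q : ℤ) + 1) - 1 - 1) % 16384 = 8192 ∧ a9 (256 * (2 * (q : ℤ) + 1) - 1 - 2) % 16384 = 8192 ∧ a9 (256 * (2 * (q : ℤ) + 1) - 1 - 3) % 16384 = 8192 ∧ a9 (256 * (2 * (q : ℤ) + 1) - 1 - 4) % 16384 = 8192 ∧ a9 (256 * (2 * (q : ℤ) + 1) - 1 - 5) % 16384 = 8192 ∧ a9 (256 * (2 * (q : ℤ) + 1) - 1 - 6) % 16384 = 8192 ∧ a9 (256 * (2 * (q : ℤ) + 1) - 1 - 7) % 16384 = 8192 := by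
  have h := parity9 q
  rw [show (q : ℤ) = (q : ℤ) - 0 by ring] at h
  simp only [sub_sub, zero_add] at h
  refine ⟨?_, ?_, ?_, ?_, ?_, ?_, ?_, ?_⟩
  · rw [b9_8_0]
    omega
  · rw [b9_8_1]
    omega
  · rw [b9_8_2]
    omega
  · rw [b9_8_3]
    omega
  · rw [b9_8_4]
    omega
  · rw [b9_8_5]
    omega
  · rw [b9_8_6]
    omega
  · rw [b9_8_7]
    omega

theorem base9_6 (q : ℕ) : a9 (512 * (2 * (q : ℤ) + 1) - 1 - 0) % 65536 = 32768 ∧ a9 (512 * (2 * (q : ℤ) + 1) - 1 - 1) % 65536 = 32768 ∧ a9 (512 * (2 * (q : ℤ) + 1) - 1 - 2) % 65536 = 32768 ∧ a9 (512 * (2 * (q : ℤ) + 1) - 1 - 3) % 65536 = 32768 ∧ a9 (512 * (2 * (q : ℤ) + 1) - 1 - 4) % 65536 = 32768 ∧ a9 (512 * (2 * (q : ℤ) + 1) - 1 - 5) % 65536 = 32768 ∧ a9 (512 * (2 * (q : ℤ) + 1) - 1 - 6) % 65536 = 32768 ∧ a9 (512 * (2 * (q : ℤ) + 1) - 1 - 7) % 65536 = 32768 := by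
  have h := parity9 q
  rw [show (q : ℤ) = (q : ℤ) - 0 by ring] at h
  simp only [sub_sub, zero_add] at h
  refine ⟨?_, ?_, ?_, ?_, ?_, ?_, ?_, ?_⟩
  · rw [b9_9_0]
    omega
  · rw [b9_9_1]
    omega
  · rw [b9_9_2]
    omega
  · rw [b9_9_3]
    omega
  · rw [b9_9_4]
    omega
  · rw [b9_9_5]
    omega
  · rw [b9_9_6]
    omega
  · rw [b9_9_7]
    omega

theorem base9_7 (q : ℕ) : a9 (1024 * (2 * (q : ℤ) + 1) - 1 - 0) % 524288 = 262144 ∧ a9 (1024 * (2 * (q : ℤ) + 1) - 1 - 1) % 524288 = 262144 ∧ a9 (1024 * (2 * (q : ℤ) + 1) - 1 - 2) % 524288 = 262144 ∧ a9 (1024 * (2 * (q : ℤ) + 1) - 1 - 3) % 524288 = 262144 ∧ a9 (1024 * (2 * (q : ℤ) + 1) - 1 - 4) % 524288 = 262144 ∧ a9 (1024 * (2 * (q : ℤ) + 1) - 1 - 5) % 524288 = 262144 ∧ a9 (1024 * (2 * (q : ℤ) + 1) - 1 - 6) % 524288 = 262144 ∧ a9 (1024 * (2 * (q : ℤ) + 1) - 1 - 7) % 524288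 = 262144 := by
  have h := parity9 q
  rw [show (q : ℤ) = (q : ℤ) - 0 by ring] at h
  simp only [sub_sub, zero_add] at h
  refine ⟨?_, ?_, ?_, ?_, ?_, ?_, ?_, ?_⟩
  · rw [b9_10_0]
    omega
  · rw [b9_10_1]
    omega
  · rw [b9_10_2]
    omega
  · rw [b9_10_3]
    omega
  · rw [b9_10_4]
    omega
  · rw [b9_10_5]
    omega
  · rw [b9_10_6]
    omega
  · rw [b9_10_7]
    omega

end Pool.Agent.Work.MP_1a5b88_nt
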