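import Mathlib
import Pool.Agent.Work.MP_1a5b88_nt.Base

namespace Pool.Agent.Work.MP_1a5b88_nt

def A5 (v : ℕ) : ℕ := 4 * ((v + 1) / 2) - v % 2
def A9 (v : ℕ) : ℕ := 5 * ((v + 1) / 2) - 2 * (v % 2)

theorem A5_add2 (v : ℕ) : A5 (v + 2) = A5 v + 4 := by unfold A5; omega
theorem A9_add2 (v : ℕ) : A9 (v + 2) = A9 v + 5 := by
  unfold A9
  rcases Nat.even_or_odd' v with ⟨c, rfl | rfl⟩ <;> omega

theorem main5 (q v : ℕ) : ∀ j : ℕ, j < 4 →
    ∃ r : ℤ, a5 (2 ^ (2 + v) * (2 * (q : ℤ) + 1) - 1 - j) = 2 ^ (A5 v) * (2 * r + 1) := by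
  induction v using Nat.strong_induction_on with
  | _ v ih =>
    intro j hj
    rcases lt_or_ge v 4 with hv | hv
    · interval_cases v
      · obtain ⟨h0, h1, h2, h3⟩ := base5_0 q
        refine ⟨a5 (2 ^ (2 + 0) * (2 * (q : ℤ) + 1) - 1 - j) / 2, ?_⟩
        rw [show A5 0 = 0 by rfl]
        norm_num at h0 h1 h2 h3 ⊢
        interval_cases j <;> norm_num <;> omega
      · obtain ⟨h0, h1, h2, h3⟩ := base5_1 q
        refine ⟨a5 (2 ^ (2 + 1) * (2 * (q : ℤ) + 1) - 1 - j) / 16, ?_⟩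
        rw [show A5 1 = 3 by rfl]
        norm_num at h0 h1 h2 h3 ⊢
        interval_cases j <;> norm_num <;> omega
      · obtain ⟨h0, h1, h2, h3⟩ := base5_2 q
        refine ⟨a5 (2 ^ (2 + 2) * (2 * (q : ℤ) + 1) - 1 - j) / 32, ?_⟩
        rw [show A5 2 = 4 by rfl]
        norm_num at h0 h1 h2 h3 ⊢
        interval_cases j <;> norm_num <;> omega
      · obtain ⟨h0, h1, h2, h3⟩ := base5_3 q
        refine ⟨a5 (2 ^ (2 + 3) * (2 * (q : ℤ) + 1) - 1 - j) / 256, ?_⟩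
        rw [show A5 3 = 7 by rfl]
        norm_num at h0 h1 h2 h3 ⊢
        interval_cases j <;> norm_num <;> omega
    · obtain ⟨w, rfl⟩ : ∃ w, v = w + 4 := ⟨v - 4, by omega⟩
      obtain ⟨r0, h0⟩ := ih w (by omega) j hj
      obtain ⟨r1, h1⟩ := ih (w + 2) (by omega) j hj
      refine ⟨5 * r1 - 4 * r0, ?_⟩
      have hch : a5 (16 * (2 ^ (2 + w) * (2 * (q : ℤ) + 1) - 1) + 15 - j) =
          80 * a5 (4 * (2 ^ (2 + w) * (2 * (q : ℤ) + 1) - 1) + 3 - j)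
          + (-1024) * a5 ((2 ^ (2 + w) * (2 * (q : ℤ) + 1) - 1) - j) := by
        interval_cases j
        · exact_mod_cast ch5_0 _
        · exact_mod_cast ch5_1 _
        · exact_mod_cast ch5_2 _
        · exact_mod_cast ch5_3 _
      rw [show (2 ^ (2 + (w + 4)) * (2 * (q : ℤ) + 1) - 1 - j : ℤ) =
        16 * (2 ^ (2 + w) * (2 * (q : ℤ) + 1) - 1) + 15 - j by ring, hch,
        show (4 * (2 ^ (2 + w) * (2 * (q : ℤ) + 1) - 1) + 3 - j : ℤ) =
        2 ^ (2 + (w + 2)) * (2 * (q : ℤ) + 1) - 1 - j by ring, h0, h1,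
        show w + 4 = (w + 2) + 2 by ring]
      simp only [A5_add2]
      ring

theorem main9 (q v : ℕ) : ∀ j : ℕ, j < 8 →
    ∃ r : ℤ, a9 (2 ^ (3 + v) * (2 * (q : ℤ) + 1) - 1 - j) = 2 ^ (A9 v) * (2 * r + 1) := by
  induction v using Nat.strong_induction_on with
  | _ v ih =>
    intro j hj
    rcases lt_or_ge v 8 with hv | hv
    · interval_cases v
      · obtain ⟨h0, h1, h2, h3, h4, h5, h6, h7⟩ := base9_0 q
        refine ⟨a9 (2 ^ (3 + 0) * (2 * (q : ℤ) + 1) - 1 - j) / 2, ?_⟩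
        rw [show A9 0 = 0 by rfl]
        norm_num at h0 h1 h2 h3 h4 h5 h6 h7 ⊢
        interval_cases j <;> norm_num <;> omega
      · obtain ⟨h0, h1, h2, h3, h4, h5, h6, h7⟩ := base9_1 q
        refine ⟨a9 (2 ^ (3 + 1) * (2 * (q : ℤ) + 1) - 1 - j) / 16, ?_⟩
        rw [show A9 1 = 3 by rfl]
        norm_num at h0 h1 h2 h3 h4 h5 h6 h7 ⊢
        interval_cases j <;> norm_num <;> omega
      · obtain ⟨h0, h1, h2, h3, h4, h5, h6, h7⟩ := base9_2 q
        refine ⟨a9 (2 ^ (3 + 2) * (2 * (q : ℤ) + 1) - 1 - j) / 64, ?_⟩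
        rw [show A9 2 = 5 by rfl]
        norm_num at h0 h1 h2 h3 h4 h5 h6 h7 ⊢
        interval_cases j <;> norm_num <;> omega
      · obtain ⟨h0, h1, h2, h3, h4, h5, h6, h7⟩ := base9_3 q
        refine ⟨a9 (2 ^ (3 + 3) * (2 * (q : ℤ) + 1) - 1 - j) / 512, ?_⟩
        rw [show A9 3 = 8 by rfl]
        norm_num at h0 h1 h2 h3 h4 h5 h6 h7 ⊢
        interval_cases j <;> norm_num <;> omega
      · obtain ⟨h0, h1, h2, h3, h4, h5, h6, h7⟩ := base9_4 q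
        refine ⟨a9 (2 ^ (3 + 4) * (2 * (q : ℤ) + 1) - 1 - j) / 2048, ?_⟩
        rw [show A9 4 = 10 by rfl]
        norm_num at h0 h1 h2 h3 h4 h5 h6 h7 ⊢
        interval_cases j <;> norm_num <;> omega
      · obtain ⟨h0, h1, h2, h3, h4, h5, h6, h7⟩ := base9_5 q
        refine ⟨a9 (2 ^ (3 + 5) * (2 * (q : ℤ) + 1) - 1 - j) / 16384, ?_⟩
        rw [show A9 5 = 13 by rfl]
        norm_num at h0 h1 h2 h3 h4 h5 h6 h7 ⊢
        interval_cases j <;> norm_num <;> omega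
      · obtain ⟨h0, h1, h2, h3, h4, h5, h6, h7⟩ := base9_6 q
        refine ⟨a9 (2 ^ (3 + 6) * (2 * (q : ℤ) + 1) - 1 - j) / 65536, ?_⟩
        rw [show A9 6 = 15 by rfl]
        norm_num at h0 h1 h2 h3 h4 h5 h6 h7 ⊢
        interval_cases j <;> norm_num <;> omega
      · obtain ⟨h0, h1, h2, h3, h4, h5, h6, h7⟩ := base9_7 q
        refine ⟨a9 (2 ^ (3 + 7) * (2 * (q : ℤ) + 1) - 1 - j) / 524288, ?_⟩
        rw [show A9 7 = 18 by rfl]
        norm_num at h0 h1 h2 h3 h4 h5 h6 h7 ⊢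
        interval_cases j <;> norm_num <;> omega
    · obtain ⟨w, rfl⟩ : ∃ w, v = w + 8 := ⟨v - 8, by omega⟩
      obtain ⟨r0, h0⟩ := ih w (by omega) j hj
      obtain ⟨r1, h1⟩ := ih (w + 2) (by omega) j hj
      obtain ⟨r2, h2⟩ := ih (w + 4) (by omega) j hj
      obtain ⟨r3, h3⟩ := ih (w + 6) (by omega) j hj
      refine ⟨205 * r3 - 8274 * r2 + 68224 * r1 - 65536 * r0 - 2691, ?_⟩
      have hch : a9 (256 * (2 ^ (3 + w) * (2 * (q : ℤ) + 1) - 1) + 255 - j) =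
          6560 * a9 (64 * (2 ^ (3 + w) * (2 * (q : ℤ) + 1) - 1) + 63 - j)
          + (-8472576) * a9 (16 * (2 ^ (3 + w) * (2 * (q : ℤ) + 1) - 1) + 15 - j)
          + 2235564032 * a9 (4 * (2 ^ (3 + w) * (2 * (q : ℤ) + 1) - 1) + 3 - j)
          + (-68719476736) * a9 ((2 ^ (3 + w) * (2 * (q : ℤ) + 1) - 1) - j) := by
        interval_cases j
        · exact_mod_cast ch9_0 _
        · exact_mod_cast ch9_1 _
        · exact_mod_cast ch9_2 _
        · exact_mod_cast ch9_3 _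
        · exact_mod_cast ch9_4 _
        · exact_mod_cast ch9_5 _
        · exact_mod_cast ch9_6 _
        · exact_mod_cast ch9_7 _
      rw [show (2 ^ (3 + (w + 8)) * (2 * (q : ℤ) + 1) - 1 - j : ℤ) =
        256 * (2 ^ (3 + w) * (2 * (q : ℤ) + 1) - 1) + 255 - j by ring, hch,
        show (64 * (2 ^ (3 + w) * (2 * (q : ℤ) + 1) - 1) + 63 - j : ℤ) =
        2 ^ (3 + (w + 6)) * (2 * (q : ℤ) + 1) - 1 - j by ring,
        show (16 * (2 ^ (3 + w) * (2 * (q : ℤ) + 1) - 1) + 15 - j : ℤ) =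
        2 ^ (3 + (w + 4)) * (2 * (q : ℤ) + 1) - 1 - j by ring,
        show (4 * (2 ^ (3 + w) * (2 * (q : ℤ) + 1) - 1) + 3 - j : ℤ) =
        2 ^ (3 + (w + 2)) * (2 * (q : ℤ) + 1) - 1 - j by ring, h0, h1, h2, h3,
        show w + 8 = (((w + 2) + 2) + 2) + 2 by ring, show w + 6 = ((w + 2) + 2) + 2 by ring,
        show w + 4 = (w + 2) + 2 by ring]
      simp only [A9_add2]
      ring

theorem ceil_half (v : ℕ) : ⌈(v : ℚ) / 2⌉₊ = (v + 1) / 2 := by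
  rcases Nat.even_or_odd' v with ⟨c, rfl | rfl⟩
  · have : (((2 * c : ℕ) : ℚ) / 2) = (c : ℚ) := by push_cast; ring
    rw [this, Nat.ceil_natCast]
    omega
  · have : (((2 * c + 1 : ℕ) : ℚ) / 2) = (c : ℚ) + 1 / 2 := by push_cast; ring
    rw [this]
    have h2 : (2 * c + 1 + 1) / 2 = c + 1 := by omega
    rw [h2, Nat.ceil_eq_iff (by omega)]
    constructor
    · push_cast; norm_num
    · push_cast; norm_num

theorem emult (x : ℤ) (A : ℕ) (h : ∃ r : ℤ, x = 2 ^ A * (2 * r + 1)) :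
    emultiplicity (2 : ℤ) x = (A : ℕ∞) := by
  obtain ⟨r, rfl⟩ := h
  rw [emultiplicity_eq_coe]
  refine ⟨Dvd.intro _ rfl, ?_⟩
  rw [pow_succ, mul_dvd_mul_iff_left (by positivity)]
  omega

theorem exists_odd_part (n : ℕ) : ∃ q : ℕ, n + 1 = 2 ^ (padicValNat 2 (n + 1)) * (2 * q + 1) := by
  obtain ⟨v, w, hw, h⟩ := Nat.exists_eq_two_pow_mul_odd (n := n + 1) (by omega)
  obtain ⟨q, rfl⟩ := hw
  have : padicValNat 2 (n + 1) = v := by
    rw [h, padicValNat.mul (by positivity) (by omega), padicValNat.prime_pow,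
      padicValNat.eq_zero_of_not_dvd (by omega), add_zero]
  exact ⟨q, by rw [this]; exact h⟩

end Pool.Agent.Work.MP_1a5b88_nt
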